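import Mathlib
import Pool.Agent.H34.FKS.Phase2

/-!
# Outcome-dependent weights

Given a random stable set `M` of `R'` and, for every outcome `M`, weights `z M` on `F` which are
the marginals of a random stable set `S` of `F`, the random set `S ∪ {g ∈ M : g` not in conflict
with `S}` is a random stable set of `R' ∪ F`.
-/

set_option autoImplicit false
set_option linter.unusedSectionVars false
set_option linter.unusedVariables false

namespace H90.FKS

open Finset H4.FKS H34.FKS

variable {E : Type*} [DecidableEq E] [Fintype E]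

/-- **The fractional step.** -/
theorem real_frac {r : E → E → Prop} [DecidableRel r] (hs : ∀ a b, r a b → r b a)
    {R' F : Finset E} (hdisj : Disjoint R' F) {y0 : E → ℝ} {w : Finset E → ℝ}
    (hw0 : ∀ M, 0 ≤ w M) (hws : ∀ M, w M ≠ 0 → Stable r M ∧ M ⊆ R') (hw1 : ∑ M, w M = 1)
    (hwm : ∀ e ∈ R', ∑ M with e ∈ M, w M = y0 e) {z : Finset E → E → ℝ}
    (hz : ∀ M, w M ≠ 0 → Real r F (z M)) {y φ : E → ℝ} (hy : ∀ e ∈ R' ∪ F, 0 ≤ y e)
    (hφ : ∀ g ∈ R', ∀ M, w M ≠ 0 → g ∈ M → ∑ e ∈ F with r e g, z M e ≤ φ g)
    (hR : ∀ g ∈ R', y g ≤ y0 g * (1 - φ g))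
    (hF : ∀ e ∈ F, y e ≤ ∑ M, w M * z M e) :
    Real r (R' ∪ F) y := by
  classical
  have hex : ∀ M, ∃ u : Finset E → ℝ, (∀ S, 0 ≤ u S) ∧ (∀ S, u S ≠ 0 → Stable r S ∧ S ⊆ F) ∧
      ∑ S, u S = 1 ∧ (w M ≠ 0 → ∀ e ∈ F, ∑ S with e ∈ S, u S = z M e) := by
    intro M
    by_cases h : w M = 0
    · refine ⟨fun S => if S = ∅ then 1 else 0, ?_, ?_, ?_, fun h' => absurd h h'⟩
      · intro S
        dsimp only
        split_ifs <;> norm_num
      · intro S hS
        by_cases hS' : S = ∅
        · subst hS'
          exact ⟨stable_empty r, empty_subset _⟩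
        · simp [hS'] at hS
      · simp
    · obtain ⟨u, h1, h2, h3, h4⟩ := hz M h
      exact ⟨u, h1, h2, h3, fun _ => h4⟩
  choose u hu0 hus hu1 hum using hex
  set out : Finset E → Finset E → Finset E := fun M S =>
    M.filter (fun g => ∀ e ∈ S, ¬ r e g) ∪ S with hout
  have key : ∀ (ψ : Finset E → ℝ), ∑ K, (∑ M, ∑ S, if out M S = K then w M * u M S else 0) * ψ K =
      ∑ M, ∑ S, w M * u M S * ψ (out M S) := by
    intro ψ
    simp_rw [sum_mul]
    rw [sum_comm]
    refine sum_congr rfl fun M _ => ?_
    rw [sum_comm]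
    refine sum_congr rfl fun S _ => ?_
    have : ∀ K, (if out M S = K then w M * u M S else 0) * ψ K =
        if out M S = K then w M * u M S * ψ K else 0 := by
      intro K; split_ifs <;> ring
    simp_rw [this]
    rw [sum_ite_eq]
    simp
  set W : Finset E → ℝ := fun K => ∑ M, ∑ S, if out M S = K then w M * u M S else 0 with hW
  have hmarg : ∀ a, ∑ K with a ∈ K, W K =
      ∑ M, ∑ S, w M * u M S * (if a ∈ out M S then 1 else 0) := by
    intro a
    rw [← key (fun K => if a ∈ K then 1 else 0), sum_filter]
    refine sum_congr rfl fun K _ => ?_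
    simp only [hW]
    split_ifs <;> ring
  have hreal : Real r (R' ∪ F) (fun a => ∑ K with a ∈ K, W K) := by
    refine ⟨W, ?_, ?_, ?_, fun e _ => rfl⟩
    · intro K
      refine sum_nonneg fun M _ => sum_nonneg fun S _ => ?_
      split_ifs
      · exact mul_nonneg (hw0 M) (hu0 M S)
      · exact le_rfl
    · intro K hK
      obtain ⟨M, -, hM⟩ := exists_ne_zero_of_sum_ne_zero hK
      obtain ⟨S, -, hS⟩ := exists_ne_zero_of_sum_ne_zero hM
      by_cases hMS : out M S = K
      · rw [if_pos hMS] at hS
        have hwM : w M ≠ 0 := fun h => hS (by rw [h, zero_mul])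
        have huS : u M S ≠ 0 := fun h => hS (by rw [h, mul_zero])
        obtain ⟨h1, h2⟩ := hws M hwM
        obtain ⟨h3, h4⟩ := hus M S huS
        subst hMS
        refine ⟨?_, union_subset ((filter_subset _ _).trans (h2.trans subset_union_left))
          (h4.trans subset_union_right)⟩
        intro a ha b hb hab hr
        simp only [hout, mem_union, mem_filter] at ha hb
        rcases ha with ha | ha <;> rcases hb with hb | hb
        · exact h1 a ha.1 b hb.1 hab hr
        · exact ha.2 b hb (hs _ _ hr)
        · exact hb.2 a ha hr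
        · exact h3 a ha b hb hab hr
      · rw [if_neg hMS] at hS
        exact absurd rfl hS
    · have := key (fun _ => 1)
      simp only [mul_one] at this
      rw [this]
      have h2 : ∀ M, ∑ S, w M * u M S = w M := by
        intro M
        rw [← mul_sum, hu1, mul_one]
      simp_rw [h2]
      exact hw1
  apply real_mono hreal hy
  intro a ha
  rw [hmarg]
  rcases mem_union.1 ha with ha | ha
  · refine (hR a ha).trans ?_
    rw [← hwm a ha, sum_mul, sum_filter]
    apply sum_le_sum
    intro M _
    by_cases hwM : w M = 0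
    · simp [hwM]
    have hsumS : ∑ S, w M * u M S * (if a ∈ out M S then 1 else 0) =
        w M * ∑ S, u M S * (if a ∈ out M S then 1 else 0) := by
      rw [mul_sum]
      exact sum_congr rfl fun S _ => by ring
    rw [hsumS]
    split_ifs with haM
    · apply mul_le_mul_of_nonneg_left _ (hw0 M)
      have h1 := avoid_mass (hu0 M) (fun S h => (hus M S h).2) (hu1 M) (hum M hwM)
        (fun e => r e a)
      have h2 := hφ a ha M hwM haM
      have h3 : ∑ S with (∀ e ∈ S, ¬ r e a), u M S ≤
          ∑ S, u M S * (if a ∈ out M S then 1 else 0) := by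
        rw [sum_filter]
        apply sum_le_sum
        intro S _
        split_ifs with h4 h5 h5
        · rw [mul_one]
        · exact absurd (by
            simp only [hout, mem_union, mem_filter]
            exact Or.inl ⟨haM, h4⟩) h5
        · rw [mul_one]; exact hu0 M S
        · rw [mul_zero]
      linarith
    · apply mul_nonneg (hw0 M)
      apply sum_nonneg
      intro S _
      apply mul_nonneg (hu0 M S)
      split_ifs <;> norm_num
  · refine (hF a ha).trans ?_
    apply sum_le_sum
    intro M _
    by_cases hwM : w M = 0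
    · simp [hwM]
    rw [← hum M hwM a ha, sum_filter, mul_sum]
    apply sum_le_sum
    intro S _
    split_ifs with h1 h2 h2
    · rw [mul_one]
    · exact absurd (by simp only [hout, mem_union]; exact Or.inr h1) h2
    · rw [mul_zero, mul_one]
      exact mul_nonneg (hw0 M) (hu0 M S)
    · simp

end H90.FKS
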