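import Mathlib

/-!
# The star inequality for edges of size two

Data of an edge of the star at `v`: `u` = request rate, `h` = probability that the leaf is covered
by an edge of size at least four, `q` = lower bound for the probability that the leaf is not
covered.
-/

set_option autoImplicit false
set_option linter.unusedVariables false

namespace H90.FKS

open Finset

/-- The three kinds of edges at a star: tiny leaf, small leaf (2-mass `t`), big other end. -/
def Cls (u h q : ℝ) : Prop :=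
  0 ≤ h ∧ h ≤ 4 / 13 ∧
    ((u = 7 / 25 ∧ 1 - 500 / 1113 + 23 / 50 * h ≤ q) ∨
      (∃ t : ℝ, 23 / 280 ≤ t ∧ t ≤ 7 / 20 ∧ u = 23 / 1000 / t ∧
        1 - 3000 / 6517 * (1 - t) + 49 / 100 * h ≤ q) ∨
      (u = 0 ∧ 1 - 3000 / 6517 * (1 - 7 / 20) ≤ q))

/-- Request rates lie in `[0, 7/25]`. -/
theorem Cls.bounds {u h q : ℝ} (hc : Cls u h q) :
    0 ≤ u ∧ u ≤ 7 / 25 ∧ 1 - 500 / 1113 ≤ q := by
  obtain ⟨h0, h1, hc | ⟨t, ht1, ht2, hu, hq⟩ | hc⟩ := hc
  · obtain ⟨rfl, hq⟩ := hc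
    refine ⟨by norm_num, le_rfl, by linarith⟩
  · have ht0 : 0 < t := by linarith
    refine ⟨by rw [hu]; positivity, ?_, by linarith⟩
    rw [hu, div_le_iff₀ ht0]
    linarith
  · obtain ⟨rfl, hq⟩ := hc
    exact ⟨le_rfl, by norm_num, by linarith⟩

/-- Discriminant of the quadratic in the second class. -/
theorem disc {t : ℝ} (h1 : 23 / 280 ≤ t) (h2 : t ≤ 7 / 20) :
    ((1 - 3000 / 6517 * (1 - t)) * (17 / 20 * t + 69 / 20000) - 2 / 3 * t) ^ 2 ≤
      4 * ((1 - 3000 / 6517 * (1 - t)) * (3 / 20) * t) * (23 / 3000) := by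
  have a1 : 0 ≤ t - 23 / 280 := by linarith
  have a2 : 0 ≤ 7 / 20 - t := by linarith
  have a3 := sq_nonneg (t - 17 / 100)
  have b1 := mul_nonneg a3 (mul_nonneg a1 a2)
  have b2 := mul_nonneg a3 a1
  have b3 := mul_nonneg a3 a2
  nlinarith [b1, b2, b3, a1, a2]

/-- Reduction of the certificate to `h = 0` and the smallest possible `w`. -/
theorem cert_key {u h q U w q0 γ : ℝ} (hu0 : 0 ≤ u) (hh0 : 0 ≤ h) (hh1 : h ≤ 4 / 13)
    (hq0 : 0 ≤ q0) (hq : q0 + γ * h ≤ q) (hγ0 : 0 ≤ γ) (hU0 : 0 ≤ U) (hU : U ≤ 7 / 25)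
    (hw : 1 / 3 / (1 - U) ≤ w)
    (hbase : 2 / 3 - u / (3 * (1 - U)) ≤ q0 * (1 + 3 / 20 * (u - U)))
    (hslope : u * (1 + 9 / 20 * q0 * (1 - U)) ≤ γ * (1 - 3 / 20 * U)) :
    2 / 3 - u * (w - h) ≤ q * (1 + 3 / 20 * (u * (w - h) / w - U)) := by
  set s : ℝ := 1 - U with hs
  have hs0 : 0 < s := by rw [hs]; linarith
  have hw3 : 1 / (3 * s) ≤ w := by
    refine le_trans (le_of_eq ?_) hw
    field_simp
  have hw0 : 0 < w := lt_of_lt_of_le (by positivity) hw3
  have hws : 1 ≤ 3 * s * w := by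
    rw [div_le_iff₀ (by positivity)] at hw3
    linarith
  have hw13 : 1 / 3 ≤ w := by
    have : s ≤ 1 := by rw [hs]; linarith
    nlinarith
  have hhw : h ≤ w := by linarith
  set δ : ℝ := u * (h / w) with hδ
  have hr : h / w ≤ 3 * s * h := by
    rw [div_le_iff₀ hw0]
    nlinarith
  have hr0 : 0 ≤ h / w := div_nonneg hh0 hw0.le
  have hr1 : h / w ≤ 1 := by
    rw [div_le_one hw0]; exact hhw
  have hδ0 : 0 ≤ δ := mul_nonneg hu0 hr0
  have hδ1 : δ ≤ u * (3 * s * h) := mul_le_mul_of_nonneg_left hr hu0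
  have hδu : δ ≤ u := by
    calc δ ≤ u * 1 := mul_le_mul_of_nonneg_left hr1 hu0
      _ = u := mul_one u
  set v : ℝ := u * (w - h) / w with hv
  have hvδ : v = u - δ := by
    rw [hv, hδ]
    field_simp
  have hv0 : 0 ≤ v := by rw [hvδ]; linarith
  have hvw : v * w = u * (w - h) := by
    rw [hv]; field_simp
  have hL : v / (3 * s) ≤ v * w := by
    have := mul_le_mul_of_nonneg_left hw3 hv0
    rw [mul_one_div] at this
    exact this
  have hpos : 0 < 1 + 3 / 20 * (v - U) := by linarith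
  have hR : (q0 + γ * h) * (1 + 3 / 20 * (v - U)) ≤ q * (1 + 3 / 20 * (v - U)) :=
    mul_le_mul_of_nonneg_right hq hpos.le
  have hU1 : 0 ≤ 1 - 3 / 20 * U := by linarith
  have h1 : γ * h * (1 - 3 / 20 * U) ≤ γ * h * (1 + 3 / 20 * (v - U)) := by
    apply mul_le_mul_of_nonneg_left _ (mul_nonneg hγ0 hh0)
    linarith
  have h2 : δ * (q0 * (3 / 20) + 1 / (3 * s)) ≤ u * (3 * s * h) * (q0 * (3 / 20) + 1 / (3 * s)) := by
    apply mul_le_mul_of_nonneg_right hδ1
    positivity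
  have h3 : u * (3 * s * h) * (q0 * (3 / 20) + 1 / (3 * s)) =
      h * (u * (1 + 9 / 20 * q0 * s)) := by
    field_simp
    ring
  have h4 : h * (u * (1 + 9 / 20 * q0 * s)) ≤ h * (γ * (1 - 3 / 20 * U)) :=
    mul_le_mul_of_nonneg_left hslope hh0
  have h5 : v / (3 * s) = u / (3 * s) - δ * (1 / (3 * s)) := by
    rw [hvδ]; field_simp
  have h6 : (q0 + γ * h) * (1 + 3 / 20 * (v - U)) =
      q0 * (1 + 3 / 20 * (u - U)) - q0 * (3 / 20) * δ + γ * h * (1 + 3 / 20 * (v - U)) := by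
    have : v = u - δ := hvδ
    rw [add_mul]
    congr 1
    rw [this]
    ring
  rw [← hvw]
  refine le_trans ?_ hR
  rw [h6]
  have h7 : δ * (q0 * (3 / 20) + 1 / (3 * s)) = q0 * (3 / 20) * δ + δ * (1 / (3 * s)) := by ring
  have h8 : h * (γ * (1 - 3 / 20 * U)) = γ * h * (1 - 3 / 20 * U) := by ring
  linarith

/-- The certificate with the constant multiplier `3/20` (vertex of 2-mass one). -/
theorem cert {u h q U w : ℝ} (hc : Cls u h q) (hU0 : 0 ≤ U) (hU : U ≤ 7 / 25)
    (hw : 1 / 3 / (1 - U) ≤ w) :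
    2 / 3 - u * (w - h) ≤ q * (1 + 3 / 20 * (u * (w - h) / w - U)) := by
  obtain ⟨hh0, hh1, hc | ⟨t, ht1, ht2, hu, hq⟩ | hc⟩ := hc
  · obtain ⟨rfl, hq⟩ := hc
    apply cert_key (q0 := 1 - 500 / 1113) (γ := 23 / 50) (by norm_num) hh0 hh1 (by norm_num) hq
      (by norm_num) hU0 hU hw
    · have hs : 0 < 3 * (1 - U) := by linarith
      rw [sub_le_iff_le_add, ← sub_le_iff_le_add', le_div_iff₀ hs]
      nlinarith
    · nlinarith
  · have ht0 : 0 < t := by linarith
    have hu0 : 0 ≤ u := by rw [hu]; positivity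
    have hut : u * t = 23 / 1000 := by rw [hu]; field_simp
    have hu1 : u ≤ 7 / 25 := by
      rw [hu, div_le_iff₀ ht0]
      linarith
    have hq0 : 0 < 1 - 3000 / 6517 * (1 - t) := by linarith
    have hq1 : 1 - 3000 / 6517 * (1 - t) ≤ 71 / 100 := by linarith
    apply cert_key (q0 := 1 - 3000 / 6517 * (1 - t)) (γ := 49 / 100) hu0 hh0 hh1 hq0.le hq
      (by norm_num) hU0 hU hw
    · set s : ℝ := 1 - U with hs
      have hs0 : 0 < s := by rw [hs]; linarith
      have hUs : U = 1 - s := by rw [hs]; ring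
      set q0 : ℝ := 1 - 3000 / 6517 * (1 - t) with hq0'
      have hd := disc ht1 ht2
      rw [← hq0'] at hd
      set α : ℝ := q0 * (3 / 20) * t with hα
      set β : ℝ := q0 * (17 / 20 * t + 69 / 20000) - 2 / 3 * t with hβ
      have hα0 : 0 < α := by positivity
      have hP : 0 ≤ α * s ^ 2 + β * s + 23 / 3000 := by
        have h1 : 0 ≤ 4 * α * (α * s ^ 2 + β * s + 23 / 3000) := by
          have h2 : 4 * α * (α * s ^ 2 + β * s + 23 / 3000) =
            (2 * α * s + β) ^ 2 + (4 * α * (23 / 3000) - β ^ 2) := by ring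
          rw [h2]
          have := sq_nonneg (2 * α * s + β)
          linarith
        exact nonneg_of_mul_nonneg_right h1 (by positivity)
      rw [sub_le_iff_le_add, ← sub_le_iff_le_add', le_div_iff₀ (by positivity)]
      rw [hUs]
      have h3 : (2 / 3 - q0 * (1 + 3 / 20 * (u - (1 - s)))) * (3 * s) * t ≤ u * t := by
        rw [hut]
        have h4 : (2 / 3 - q0 * (1 + 3 / 20 * (u - (1 - s)))) * (3 * s) * t =
            3 * (2 / 3 * t * s - q0 * s * (t + 3 / 20 * (u * t) - 3 / 20 * t + 3 / 20 * t * s)) := by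
          ring
        rw [h4, hut]
        have h5 : α * s ^ 2 + β * s + 23 / 3000 = 23 / 3000 -
            (2 / 3 * t * s - q0 * s * (t + 3 / 20 * (23 / 1000) - 3 / 20 * t + 3 / 20 * t * s)) := by
          rw [hα, hβ]; ring
        rw [h5] at hP
        linarith
      exact le_of_mul_le_mul_right h3 ht0
    · have h1 : 1 - U ≤ 1 := by linarith
      have h2 : 9 / 20 * (1 - 3000 / 6517 * (1 - t)) * (1 - U) ≤ 9 / 20 * (71 / 100) * 1 := by
        apply mul_le_mul _ h1 (by linarith) (by norm_num)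
        linarith
      have h3 : u * (1 + 9 / 20 * (1 - 3000 / 6517 * (1 - t)) * (1 - U)) ≤
          7 / 25 * (1 + 9 / 20 * (71 / 100)) := by
        apply mul_le_mul hu1 (by linarith) _ (by norm_num)
        have : 0 ≤ 9 / 20 * (1 - 3000 / 6517 * (1 - t)) * (1 - U) := by
          apply mul_nonneg (by positivity) (by linarith)
        linarith
      nlinarith
  · obtain ⟨rfl, hq⟩ := hc
    have h1 : 0 < 1 + 3 / 20 * (0 * (w - h) / w - U) := by
      rw [zero_mul, zero_div]; linarith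
    have h2 := mul_le_mul_of_nonneg_right hq h1.le
    refine le_trans ?_ h2
    rw [zero_mul, zero_div]
    nlinarith

/-- Bounds for the idle mass `w`. -/
theorem omega_bounds {ι : Type*} (s : Finset ι) (x u h q : ι → ℝ) (hx : ∀ e ∈ s, 0 ≤ x e)
    (hc : ∀ e ∈ s, Cls (u e) (h e) (q e)) (ha : ∑ e ∈ s, x e ≤ 1) {Z w : ℝ} (hZ0 : 0 ≤ Z)
    (hZ : Z ≤ 3000 / 6517 * (1 - ∑ e ∈ s, x e))
    (hw : w * (1 - ∑ e ∈ s, x e * u e) = 1 - Z - 2 / 3 * ∑ e ∈ s, x e -
      ∑ e ∈ s, x e * u e * h e) :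
    0 ≤ ∑ e ∈ s, x e * u e ∧ ∑ e ∈ s, x e * u e ≤ 7 / 25 ∧ 1 / 3 ≤ w ∧ w ≤ 25 / 18 := by
  set a := ∑ e ∈ s, x e with ha'
  set U := ∑ e ∈ s, x e * u e with hU'
  set P := ∑ e ∈ s, x e * u e * h e with hP'
  have ha0 : 0 ≤ a := sum_nonneg hx
  have hU0 : 0 ≤ U := sum_nonneg fun e he => mul_nonneg (hx e he) (hc e he).bounds.1
  have hU1 : U ≤ 7 / 25 := by
    have h1 : U ≤ ∑ e ∈ s, x e * (7 / 25) :=
      sum_le_sum fun e he => mul_le_mul_of_nonneg_left (hc e he).bounds.2.1 (hx e he)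
    rw [← sum_mul] at h1
    linarith
  have hP0 : 0 ≤ P := sum_nonneg fun e he =>
    mul_nonneg (mul_nonneg (hx e he) (hc e he).bounds.1) (hc e he).1
  have hP1 : P ≤ 4 / 13 * U := by
    rw [hU', hP', mul_sum]
    refine sum_le_sum fun e he => ?_
    have h1 := mul_le_mul_of_nonneg_left (hc e he).2.1
      (mul_nonneg (hx e he) (hc e he).bounds.1)
    linarith
  have h1U : 0 < 1 - U := by linarith
  refine ⟨hU0, hU1, ?_, ?_⟩
  · have h2 : 1 / 3 * (1 - U) ≤ w * (1 - U) := by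
      rw [hw]
      linarith
    exact le_of_mul_le_mul_right h2 h1U
  · have h2 : w * (1 - U) ≤ 25 / 18 * (1 - U) := by
      rw [hw]
      linarith
    exact le_of_mul_le_mul_right h2 h1U

/-- **The star inequality.** -/
theorem star_two {ι : Type*} (s : Finset ι) (x u h q : ι → ℝ) (hx : ∀ e ∈ s, 0 ≤ x e)
    (hc : ∀ e ∈ s, Cls (u e) (h e) (q e)) (ha : ∑ e ∈ s, x e ≤ 1) {Z w : ℝ} (hZ0 : 0 ≤ Z)
    (hZ : Z ≤ 3000 / 6517 * (1 - ∑ e ∈ s, x e))
    (hw : w * (1 - ∑ e ∈ s, x e * u e) = 1 - Z - 2 / 3 * ∑ e ∈ s, x e -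
      ∑ e ∈ s, x e * u e * h e) :
    ∑ e ∈ s, x e * (2 / 3 - u e * (w - h e)) / (q e - Z) ≤ 1 := by
  obtain ⟨hU0, hU1, hw13, hw2⟩ := omega_bounds s x u h q hx hc ha hZ0 hZ hw
  set a := ∑ e ∈ s, x e with ha'
  set U := ∑ e ∈ s, x e * u e with hU'
  set P := ∑ e ∈ s, x e * u e * h e with hP'
  have ha0 : 0 ≤ a := sum_nonneg hx
  have hw0 : 0 < w := by linarith
  rcases ha0.eq_or_lt with h0 | hapos
  · -- no mass
    have hz : ∀ e ∈ s, x e = 0 := (sum_eq_zero_iff_of_nonneg hx).1 h0.symm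
    have : ∑ e ∈ s, x e * (2 / 3 - u e * (w - h e)) / (q e - Z) = 0 := by
      apply sum_eq_zero
      intro e he
      rw [hz e he, zero_mul, zero_div]
    rw [this]; norm_num
  set v : ι → ℝ := fun e => u e * (w - h e) / w with hv
  set Y : ℝ := ∑ e ∈ s, x e * v e with hY
  have hP0 : 0 ≤ P := sum_nonneg fun e he =>
    mul_nonneg (mul_nonneg (hx e he) (hc e he).bounds.1) (hc e he).1
  have hYU : Y = U - P / w := by
    rw [hY, hU', hP', sum_div, ← sum_sub_distrib]
    refine sum_congr rfl fun e _ => ?_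
    simp only [hv]
    field_simp
  have hv0 : ∀ e ∈ s, 0 ≤ v e := by
    intro e he
    simp only [hv]
    apply div_nonneg (mul_nonneg (hc e he).bounds.1 _) hw0.le
    have := (hc e he).2.1
    linarith
  have hv1 : ∀ e ∈ s, v e ≤ 7 / 25 := by
    intro e he
    simp only [hv]
    rw [div_le_iff₀ hw0]
    have h1 := (hc e he).bounds
    have h2 := (hc e he).1
    have h3 : u e * (w - h e) ≤ u e * w := mul_le_mul_of_nonneg_left (by linarith) h1.1
    have h4 : u e * w ≤ 7 / 25 * w := mul_le_mul_of_nonneg_right h1.2.1 hw0.le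
    linarith
  have hY0 : 0 ≤ Y := sum_nonneg fun e he => mul_nonneg (hx e he) (hv0 e he)
  have hY1 : Y ≤ 7 / 25 := by
    rw [hYU]
    have := div_nonneg hP0 hw0.le
    linarith
  have hwY : w * (1 - Y) = 1 - Z - 2 / 3 * a := by
    rw [hYU]
    have h1 : w * (1 - (U - P / w)) = w * (1 - U) + P := by field_simp; ring
    rw [h1, hw]
    ring
  have hwY' : 1 / 3 / (1 - Y) ≤ w := by
    rw [div_le_iff₀ (by linarith), hwY]
    linarith
  set β : ℝ := 1 - 3 / 20 * Y with hβ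
  have hβ0 : 19 / 20 ≤ β := by rw [hβ]; linarith
  have hterm : ∀ e ∈ s, x e * (2 / 3 - u e * (w - h e)) / (q e - Z) ≤
      x e * (β / a + 3 / 20 * v e) := by
    intro e he
    have hb := (hc e he).bounds
    have hqZ : 0 < q e - Z := by linarith
    rw [mul_div_assoc]
    apply mul_le_mul_of_nonneg_left _ (hx e he)
    rw [div_le_iff₀ hqZ]
    have h1 := cert (hc e he) hY0 hY1 hwY'
    have h2 : q e * (1 + 3 / 20 * (u e * (w - h e) / w - Y)) = q e * (β + 3 / 20 * v e) := by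
      rw [hβ]; ring
    rw [h2] at h1
    refine h1.trans ?_
    have hve0 := hv0 e he
    have hve1 := hv1 e he
    -- multiply by `a`
    have h3 : q e * (β + 3 / 20 * v e) * a ≤ (β / a + 3 / 20 * v e) * (q e - Z) * a := by
      have h4 : (β / a + 3 / 20 * v e) * (q e - Z) * a = (β + 3 / 20 * v e * a) * (q e - Z) := by
        field_simp
      rw [h4]
      have h5 : Z * (β + 3 / 20 * v e * a) ≤
          3000 / 6517 * (1 - a) * (β + 3 / 20 * v e * a) := by
        apply mul_le_mul_of_nonneg_right hZ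
        have : 0 ≤ 3 / 20 * v e * a := by positivity
        linarith
      have h6 : 3000 / 6517 * (β + 3 / 20 * v e * a) ≤ q e * β := by
        have h7 : v e * a ≤ 7 / 25 * 1 := mul_le_mul hve1 ha ha0 (by norm_num)
        have h8 : (613 / 1113) * β ≤ q e * β := by
          apply mul_le_mul_of_nonneg_right _ (by linarith)
          linarith
        nlinarith
      have h9 : (1 - a) * (3000 / 6517 * (β + 3 / 20 * v e * a)) ≤ (1 - a) * (q e * β) :=
        mul_le_mul_of_nonneg_left h6 (by linarith)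
      nlinarith
    exact le_of_mul_le_mul_right h3 hapos
  refine (sum_le_sum hterm).trans (le_of_eq ?_)
  have h1 : ∀ e ∈ s, x e * (β / a + 3 / 20 * v e) = β / a * x e + 3 / 20 * (x e * v e) :=
    fun e _ => by ring
  rw [sum_congr rfl h1, sum_add_distrib, ← mul_sum, ← mul_sum, ← ha', ← hY,
    div_mul_cancel₀ _ hapos.ne', hβ]
  ring

end H90.FKS
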