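import Mathlib
import Pool.Agent.H34.FKS.StepDefs
import Pool.Agent.H90.FKS.StarTwo

/-!
# Level two: definitions and the mass of the larger edges at a vertex
-/

set_option autoImplicit false
set_option linter.unusedSectionVars false
set_option linter.unusedVariables false

namespace H90.FKS

open Finset H4.FKS H34.FKS

/-- Request rate at a leaf of 2-mass `t`. -/
noncomputable def uu (t : ℝ) : ℝ :=
  if t ≤ 23 / 280 then 7 / 25 else if t ≤ 7 / 20 then 23 / 1000 / t else 0

/-- Charge of a vertex of 2-mass `t`. -/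
noncomputable def phi (t : ℝ) : ℝ := t * uu t

theorem uu_nonneg {t : ℝ} (ht : 0 ≤ t) : 0 ≤ uu t := by
  unfold uu
  split_ifs
  · norm_num
  · positivity
  · exact le_rfl

theorem uu_le {t : ℝ} : uu t ≤ 7 / 25 := by
  unfold uu
  split_ifs with h1 h2
  · exact le_rfl
  · push Not at h1
    rw [div_le_iff₀ (by linarith)]
    linarith
  · norm_num

theorem uu_big {t : ℝ} (ht : 7 / 20 < t) : uu t = 0 := by
  unfold uu
  rw [if_neg (by linarith), if_neg (by linarith)]

theorem phi_nonneg {t : ℝ} (ht : 0 ≤ t) : 0 ≤ phi t := mul_nonneg ht (uu_nonneg ht)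

theorem phi_le {t : ℝ} (ht : 0 ≤ t) : phi t ≤ 23 / 1000 := by
  unfold phi uu
  split_ifs with h1 h2
  · linarith
  · push Not at h1
    rw [mul_div_cancel₀ _ (by linarith : t ≠ 0)]
  · norm_num

theorem phi_le_mul {t : ℝ} (ht : 0 ≤ t) : phi t ≤ 7 / 25 * t := by
  unfold phi
  have := mul_le_mul_of_nonneg_left (uu_le (t := t)) ht
  linarith

variable {V E : Type} [Fintype V] [DecidableEq V] [DecidableEq E] [Fintype E]

/-- Mass of the edges of size two at `v`. -/
noncomputable def a2 (H : E → Finset V) (x : E → ℝ) (v : V) : ℝ :=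
  ∑ f with ((H f).card = 2 ∧ v ∈ H f), x f

/-- Inflation of the edges of size three. -/
noncomputable def kap3 (H : E → Finset V) (x : E → ℝ) (g : E) : ℝ :=
  1 / (1 - ∑ v ∈ H g, phi (a2 H x v)) - 1

theorem a2_nonneg {H : E → Finset V} {x : E → ℝ} (hx : ∀ e, 0 ≤ x e) (v : V) : 0 ≤ a2 H x v :=
  sum_nonneg fun f _ => hx f

theorem a2_le_one {H : E → Finset V} {x : E → ℝ} (hx : ∀ e, 0 ≤ x e)
    (hdeg : ∀ v, ∑ f with v ∈ H f, x f ≤ 1) (v : V) : a2 H x v ≤ 1 := by
  refine le_trans ?_ (hdeg v)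
  apply sum_le_sum_of_subset_of_nonneg
  · intro f hf
    simp only [mem_filter, mem_univ, true_and] at hf ⊢
    exact hf.2
  · exact fun f _ _ => hx f

/-- Total charge of an edge of size three. -/
theorem charge_le {H : E → Finset V} {x : E → ℝ} (hx : ∀ e, 0 ≤ x e) {g : E}
    (hg : (H g).card = 3) {w : V} (hw : w ∈ H g) :
    ∑ v ∈ H g, phi (a2 H x v) ≤ phi (a2 H x w) + 46 / 1000 := by
  rw [← add_sum_erase _ _ hw]
  have h1 : ∑ v ∈ (H g).erase w, phi (a2 H x v) ≤ ∑ v ∈ (H g).erase w, (23 / 1000 : ℝ) :=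
    sum_le_sum fun v _ => phi_le (a2_nonneg hx v)
  rw [sum_const, card_erase_of_mem hw, hg] at h1
  norm_num at h1 ⊢
  linarith

theorem charge_le' {H : E → Finset V} {x : E → ℝ} (hx : ∀ e, 0 ≤ x e) {g : E}
    (hg : (H g).card = 3) : ∑ v ∈ H g, phi (a2 H x v) ≤ 69 / 1000 := by
  have h1 : ∑ v ∈ H g, phi (a2 H x v) ≤ ∑ v ∈ H g, (23 / 1000 : ℝ) :=
    sum_le_sum fun v _ => phi_le (a2_nonneg hx v)
  rw [sum_const, hg] at h1
  norm_num at h1 ⊢
  linarith

theorem charge_nonneg {H : E → Finset V} {x : E → ℝ} (hx : ∀ e, 0 ≤ x e) (g : E) :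
    0 ≤ ∑ v ∈ H g, phi (a2 H x v) :=
  sum_nonneg fun v _ => phi_nonneg (a2_nonneg hx v)

theorem kap3_nonneg {H : E → Finset V} {x : E → ℝ} (hx : ∀ e, 0 ≤ x e) {g : E}
    (hg : (H g).card = 3) : 0 ≤ kap3 H x g := by
  have h1 := charge_le' hx hg
  have h2 := charge_nonneg (H := H) hx g
  unfold kap3
  have h3 : 1 ≤ 1 / (1 - ∑ v ∈ H g, phi (a2 H x v)) := by
    rw [le_div_iff₀ (by linarith)]
    linarith
  linarith

/-- Absolute bound for the inflation. -/
theorem kap3_le {H : E → Finset V} {x : E → ℝ} (hx : ∀ e, 0 ≤ x e) {g : E}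
    (hg : (H g).card = 3) : kap3 H x g ≤ 69 / 931 := by
  have h1 := charge_le' hx hg
  have h2 := charge_nonneg (H := H) hx g
  unfold kap3
  have h3 : 1 / (1 - ∑ v ∈ H g, phi (a2 H x v)) ≤ 1000 / 931 := by
    rw [div_le_div_iff₀ (by linarith) (by norm_num)]
    linarith
  linarith

/-- Linear bound for the inflation. -/
theorem kap3_le_mul {H : E → Finset V} {x : E → ℝ} (hx : ∀ e, 0 ≤ x e) {g : E}
    (hg : (H g).card = 3) : kap3 H x g ≤ 280 / 931 * ∑ v ∈ H g, a2 H x v := by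
  have h1 := charge_le' hx hg
  have h2 := charge_nonneg (H := H) hx g
  have h4 : ∑ v ∈ H g, phi (a2 H x v) ≤ 7 / 25 * ∑ v ∈ H g, a2 H x v := by
    rw [mul_sum]
    exact sum_le_sum fun v _ => phi_le_mul (a2_nonneg hx v)
  unfold kap3
  set P := ∑ v ∈ H g, phi (a2 H x v)
  set B := ∑ v ∈ H g, a2 H x v
  have h3 : 1 / (1 - P) - 1 = P / (1 - P) := by
    have : (1 - P) ≠ 0 := by linarith
    field_simp
    ring
  rw [h3, div_le_iff₀ (by linarith)]
  have h5 : 0 ≤ B := by
    have : 0 ≤ 7 / 25 * B := h2.trans h4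
    linarith
  nlinarith

/-- The 2-masses at the vertices of `g` are part of `bsm`. -/
theorem sum_a2_le {H : E → Finset V} {x : E → ℝ} (hx : ∀ e, 0 ≤ x e) (g : E) :
    ∑ v ∈ H g, a2 H x v ≤ bsm H x 3 g := by
  unfold a2 bsm
  simp_rw [sum_filter]
  rw [sum_comm]
  apply sum_le_sum
  intro f _
  have h1 : ∑ v ∈ H g, (if ((H f).card = 2 ∧ v ∈ H f) then x f else 0) =
      if (H f).card = 2 then x f * ((H g ∩ H f).card : ℝ) else 0 := by
    by_cases h : (H f).card = 2
    · simp only [h, true_and, if_true]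
      rw [← sum_filter, sum_const, nsmul_eq_mul, mul_comm]
      congr 2
      
    · simp [h]
  rw [h1]
  split_ifs with h2 h3 h3
  · exact le_rfl
  · omega
  · exact mul_nonneg (hx f) (Nat.cast_nonneg _)
  · exact le_rfl

section cover

variable {H : E → Finset V} {x : E → ℝ} {R' : Finset E}

/-- Mass of the larger edges at `v` (level three demands). -/
noncomputable def Zp (H : E → Finset V) (x : E → ℝ) (R' : Finset E) (v : V) : ℝ :=
  ∑ g ∈ R' with v ∈ H g, dem H x (kap3 H x) 3 g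

/-- Mass of the edges of size at least four at `v`. -/
noncomputable def hh (H : E → Finset V) (x : E → ℝ) (R' : Finset E) (v : V) : ℝ :=
  ∑ g ∈ R' with (v ∈ H g ∧ 4 ≤ (H g).card), dem H x (kap3 H x) 3 g

theorem ck3 : ck 3 = 7 / 3 := by unfold ck; norm_num
theorem ck4 : ck 4 = 13 / 4 := by unfold ck; norm_num
theorem ck2 : ck 2 = 3 / 2 := by unfold ck; norm_num

theorem dem_ge_four (hx : ∀ e, 0 ≤ x e) {g : E} (hg : 4 ≤ (H g).card) :
    0 ≤ dem H x (kap3 H x) 3 g ∧ dem H x (kap3 H x) 3 g ≤ 4 / 13 * x g := by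
  unfold dem
  rw [if_neg (by omega)]
  have h1 := ck_mono (k := 4) (by norm_num) hg
  rw [ck4] at h1
  have h2 : 0 < ck (H g).card := by linarith
  refine ⟨div_nonneg (hx g) h2.le, ?_⟩
  rw [div_le_iff₀ h2]
  have := mul_le_mul_of_nonneg_left h1 (hx g)
  linarith

theorem dem_three (hx : ∀ e, 0 ≤ x e) {g : E} (hg : (H g).card = 3) :
    dem H x (kap3 H x) 3 g = 3 / 7 * x g / (1 - ∑ v ∈ H g, phi (a2 H x v)) := by
  unfold dem kap3
  rw [if_pos hg, ck3]
  ring

/-- **Cover bounds.** -/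
theorem cover_core (hx : ∀ e, 0 ≤ x e) (hdeg : ∀ v, ∑ f with v ∈ H f, x f ≤ 1)
    (hR' : ∀ g ∈ R', 3 ≤ (H g).card) (w : V) :
    0 ≤ hh H x R' w ∧ 0 ≤ Zp H x R' w ∧
    ∃ m : ℝ, 0 ≤ m ∧ m ≤ 1 - a2 H x w - 13 / 4 * hh H x R' w ∧
      Zp H x R' w ≤ 3 / 7 * m / (1 - phi (a2 H x w) - 46 / 1000) + hh H x R' w := by
  classical
  set m3 := ∑ g ∈ R' with (w ∈ H g ∧ (H g).card = 3), x g with hm3
  set m4 := ∑ g ∈ R' with (w ∈ H g ∧ 4 ≤ (H g).card), x g with hm4
  have ha := a2_nonneg (H := H) hx w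
  have hphi := phi_nonneg ha
  have hphi' := phi_le ha
  have h1 : hh H x R' w ≤ 4 / 13 * m4 := by
    unfold hh
    rw [hm4, mul_sum]
    apply sum_le_sum
    intro g hg
    exact (dem_ge_four hx (mem_filter.1 hg).2.2).2
  have h2 : 0 ≤ hh H x R' w := by
    unfold hh
    apply sum_nonneg
    intro g hg
    exact (dem_ge_four hx (mem_filter.1 hg).2.2).1
  have h3 : Zp H x R' w = ∑ g ∈ R' with (w ∈ H g ∧ (H g).card = 3), dem H x (kap3 H x) 3 g +
      hh H x R' w := by
    unfold Zp hh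
    rw [← sum_union]
    · apply sum_congr _ fun _ _ => rfl
      ext g
      simp only [mem_filter, mem_union]
      constructor
      · rintro ⟨h, h'⟩
        have := hR' g h
        rcases Nat.lt_or_ge (H g).card 4 with h4 | h4
        · exact Or.inl ⟨h, h', by omega⟩
        · exact Or.inr ⟨h, h', h4⟩
      · rintro (⟨h, h', -⟩ | ⟨h, h', -⟩) <;> exact ⟨h, h'⟩
    · rw [disjoint_left]
      intro g h h'
      have := (mem_filter.1 h).2.2
      have := (mem_filter.1 h').2.2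
      omega
  have hD : 0 < 1 - phi (a2 H x w) - 46 / 1000 := by linarith
  have h4 : ∀ g ∈ R'.filter (fun g => w ∈ H g ∧ (H g).card = 3),
      0 ≤ dem H x (kap3 H x) 3 g ∧
      dem H x (kap3 H x) 3 g ≤ 3 / 7 * x g / (1 - phi (a2 H x w) - 46 / 1000) := by
    intro g hg
    obtain ⟨-, h5, h6⟩ := mem_filter.1 hg
    rw [dem_three hx h6]
    have h7 := charge_le hx h6 h5
    have h8 : 0 < 1 - ∑ v ∈ H g, phi (a2 H x v) := by linarith
    have h9 : 0 ≤ 3 / 7 * x g := mul_nonneg (by norm_num) (hx g)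
    refine ⟨div_nonneg h9 h8.le, ?_⟩
    apply div_le_div_of_nonneg_left h9 hD
    linarith
  have h5 : m3 + m4 ≤ 1 - a2 H x w := by
    have h6 := hdeg w
    have h7 : m3 + m4 + a2 H x w ≤ ∑ f with w ∈ H f, x f := by
      unfold a2
      rw [hm3, hm4, ← sum_union, ← sum_union]
      · apply sum_le_sum_of_subset_of_nonneg
        · intro f hf
          simp only [mem_filter, mem_union, mem_univ, true_and] at hf ⊢
          tauto
        · exact fun f _ _ => hx f
      · rw [disjoint_left]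
        intro f hf hf'
        simp only [mem_filter, mem_union, mem_univ, true_and] at hf hf'
        rcases hf with h | h
        · omega
        · omega
      · rw [disjoint_left]
        intro f hf hf'
        have := (mem_filter.1 hf).2.2
        have := (mem_filter.1 hf').2.2
        omega
    linarith
  have hm30 : 0 ≤ m3 := sum_nonneg fun g _ => hx g
  refine ⟨h2, ?_, m3, hm30, by linarith, ?_⟩
  · rw [h3]
    have := sum_nonneg fun g hg => (h4 g hg).1
    linarith
  · rw [h3]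
    have h6 := sum_le_sum fun g hg => (h4 g hg).2
    have h7 : ∑ g ∈ R' with (w ∈ H g ∧ (H g).card = 3),
        3 / 7 * x g / (1 - phi (a2 H x w) - 46 / 1000) =
        3 / 7 * m3 / (1 - phi (a2 H x w) - 46 / 1000) := by
      rw [← sum_div, ← mul_sum]
    linarith

/-- Simple bound of the mass of the larger edges. -/
theorem Zp_le (hx : ∀ e, 0 ≤ x e) (hdeg : ∀ v, ∑ f with v ∈ H f, x f ≤ 1)
    (hR' : ∀ g ∈ R', 3 ≤ (H g).card) (w : V) :
    Zp H x R' w ≤ 3000 / 6517 * (1 - a2 H x w) - 49 / 100 * hh H x R' w := by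
  obtain ⟨h1, h2, m, hm, h3, h4⟩ := cover_core hx hdeg hR' w
  have ha := a2_nonneg (H := H) hx w
  have hphi := phi_nonneg ha
  have hphi' := phi_le ha
  have h5 : 3 / 7 * m / (1 - phi (a2 H x w) - 46 / 1000) ≤ 3 / 7 * m / (931 / 1000) := by
    apply div_le_div_of_nonneg_left (by linarith) (by norm_num)
    linarith
  have h6 : 3 / 7 * m / (931 / 1000) = 3000 / 6517 * m := by ring
  rw [h6] at h5
  linarith

/-- The three kinds of leaves. -/
theorem cls_of (hx : ∀ e, 0 ≤ x e) (hdeg : ∀ v, ∑ f with v ∈ H f, x f ≤ 1)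
    (hR' : ∀ g ∈ R', 3 ≤ (H g).card) (w : V) :
    Cls (uu (a2 H x w)) (hh H x R' w) (1 - Zp H x R' w) := by
  have h0 := Zp_le hx hdeg hR' w
  obtain ⟨h1, h2, m, hm, h3, h4⟩ := cover_core hx hdeg hR' w
  have ha := a2_nonneg (H := H) hx w
  have hphi := phi_nonneg ha
  have hphi' := phi_le ha
  set a := a2 H x w with hadef
  set h := hh H x R' w with hhdef
  refine ⟨h1, by linarith, ?_⟩
  by_cases ht : a ≤ 23 / 280
  · left
    have hu : uu a = 7 / 25 := by unfold uu; rw [if_pos ht]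
    refine ⟨hu, ?_⟩
    have hp : phi a = 7 / 25 * a := by unfold phi; rw [hu]; ring
    rw [hp] at h4
    have hD : 0 < 1 - 7 / 25 * a - 46 / 1000 := by linarith
    have h5 : 3 / 7 * m / (1 - 7 / 25 * a - 46 / 1000) ≤ 500 / 1113 * (1 - 13 / 4 * h) := by
      rw [div_le_iff₀ hD]
      have h6 : m ≤ 1 - a - 13 / 4 * h := h3
      nlinarith [mul_nonneg ha h1]
    linarith
  · push Not at ht
    by_cases ht' : a ≤ 7 / 20
    · right; left
      refine ⟨a, ht.le, ht', ?_, by linarith⟩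
      unfold uu
      rw [if_neg (by linarith), if_pos ht']
    · push Not at ht'
      right; right
      refine ⟨uu_big ht', ?_⟩
      linarith

end cover

end H90.FKS
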