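import Mathlib
import Pool.Agent.H4.FKS.Pseudo
import Pool.Agent.H90.FKS.Frac
import Pool.Agent.H90.FKS.TwoDefs
import Pool.Agent.H84.FKS.Ext

/-!
# Level two from level three
-/

set_option autoImplicit false
set_option linter.unusedSectionVars false
set_option linter.unusedVariables false

namespace H90.FKS

open Finset H4.FKS H34.FKS H84.FKS

variable {V E : Type} [Fintype V] [DecidableEq V] [DecidableEq E] [Fintype E]

/-- The other endpoint of an edge of size two. -/
noncomputable def ot (H : E → Finset V) (e : E) (v : V) : V :=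
  if h : ((H e).erase v).Nonempty then h.choose else v

theorem ot_mem {H : E → Finset V} {e : E} {v : V} (he : (H e).card = 2) (hv : v ∈ H e) :
    ot H e v ≠ v ∧ ot H e v ∈ H e := by
  have h1 : ((H e).erase v).Nonempty := by
    rw [← card_pos, card_erase_of_mem hv, he]; norm_num
  unfold ot
  rw [dif_pos h1]
  exact mem_erase.1 h1.choose_spec

theorem ot_pair {H : E → Finset V} {e : E} {v : V} (he : (H e).card = 2) (hv : v ∈ H e) :
    H e = {v, ot H e v} := by
  obtain ⟨h1, h2⟩ := ot_mem he hv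
  symm
  apply eq_of_subset_of_card_le
  · intro u hu
    rcases mem_insert.1 hu with rfl | hu
    · exact hv
    · rw [mem_singleton.1 hu]; exact h2
  · rw [he, card_pair h1.symm]

theorem ot_ot {H : E → Finset V} {e : E} {v : V} (he : (H e).card = 2) (hv : v ∈ H e) :
    ot H e (ot H e v) = v := by
  obtain ⟨h1, h2⟩ := ot_mem he hv
  obtain ⟨h3, h4⟩ := ot_mem he h2
  rw [ot_pair he hv] at h4
  rcases mem_insert.1 h4 with h | h
  · exact h
  · exact absurd (mem_singleton.1 h) h3

theorem sum_two {H : E → Finset V} {e : E} {v : V} (he : (H e).card = 2) (hv : v ∈ H e)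
    (f : V → ℝ) : ∑ u ∈ H e, f u = f v + f (ot H e v) := by
  conv_lhs => rw [ot_pair he hv]
  rw [sum_pair (ot_mem he hv).1.symm]

theorem sum_ot {H : E → Finset V} {e : E} (he : (H e).card = 2) (f : V → ℝ) :
    ∑ u ∈ H e, f (ot H e u) = ∑ u ∈ H e, f u := by
  obtain ⟨v, hv⟩ : (H e).Nonempty := by rw [← card_pos, he]; norm_num
  rw [sum_two he hv, sum_two he hv, ot_ot he hv, add_comm]

open Classical in
/-- Data of the step. -/
structure Setup (H : E → Finset V) (x : E → ℝ) (R' F : Finset E) (w : Finset E → ℝ) : Prop where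
  hne : ∀ e, (H e).Nonempty
  hx : ∀ e, 0 ≤ x e
  hdeg : ∀ v, ∑ f with v ∈ H f, x f ≤ 1
  hR' : ∀ g ∈ R', 3 ≤ (H g).card
  hF : ∀ e ∈ F, (H e).card = 2
  hxF : ∀ e ∈ F, x e ≠ 0
  hw0 : ∀ M, 0 ≤ w M
  hws : ∀ M, w M ≠ 0 → Stable (fun e f => ¬ Disjoint (H e) (H f)) M ∧ M ⊆ R'
  hw1 : ∑ M, w M = 1
  hwm : ∀ e ∈ R', ∑ M with e ∈ M, w M = dem H x (kap3 H x) 3 e

section defs

variable (H : E → Finset V) (x : E → ℝ) (R' F : Finset E) (w : Finset E → ℝ)

/-- `e` is free at the outcome `M`. -/
def fr (M : Finset E) (e : E) : Prop := ∀ g ∈ M, Disjoint (H e) (H g)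

/-- `v` is covered at the outcome `M`. -/
def cov (M : Finset E) (v : V) : Prop := ∃ g ∈ M, v ∈ H g

/-- `v` is covered by an edge of size at least four. -/
def cov4 (M : Finset E) (v : V) : Prop := ∃ g ∈ M, v ∈ H g ∧ 4 ≤ (H g).card

/-- Mass of `F` at `v`. -/
noncomputable def XF (v : V) : ℝ := ∑ f ∈ F with v ∈ H f, x f

/-- Total request rate at `v`. -/
noncomputable def UF (v : V) : ℝ := ∑ f ∈ F with v ∈ H f, x f * uu (a2 H x (ot H f v))

/-- Idle mass at `v`. -/
noncomputable def om (v : V) : ℝ :=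
  (1 - Zp H x R' v - 2 / 3 * XF H x F v -
    ∑ f ∈ F with v ∈ H f, x f * uu (a2 H x (ot H f v)) * hh H x R' (ot H f v)) / (1 - UF H x F v)

open Classical in
/-- Request rate of `e` with centre `v`. -/
noncomputable def rt (e : E) (v : V) : ℝ :=
  if 7 / 20 < a2 H x v then uu (a2 H x (ot H e v)) else 0

/-- Main service of `e`. -/
noncomputable def ss (e : E) : ℝ :=
  x e * (2 / 3 - ∑ v ∈ H e, rt H x e v * (om H x R' F v - hh H x R' (ot H e v)))

open Classical in
/-- Mass of the outcomes at which `e` is free. -/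
noncomputable def lf (e : E) : ℝ := ∑ M with fr H M e, w M

/-- Rate of the main service. -/
noncomputable def th (e : E) : ℝ := ss H x R' F e / lf H w e

open Classical in
/-- Load of `v` at the outcome `M`. -/
noncomputable def ld (M : Finset E) (v : V) : ℝ :=
  ∑ f ∈ F with v ∈ H f, th H x R' F w f * (if fr H M f then 1 else 0)

open Classical in
/-- Idle weight at `v` (centre) with leaf `u`. -/
noncomputable def idl (M : Finset E) (v u : V) : ℝ :=
  (1 - ld H x R' F w M v) * (if (¬ cov H M v ∧ ¬ cov4 H M u) then 1 else 0)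

open Classical in
/-- The weights. -/
noncomputable def zz (M : Finset E) (e : E) : ℝ :=
  if e ∈ F then th H x R' F w e * (if fr H M e then 1 else 0) +
    ∑ v ∈ H e, x e * rt H x e v * idl H x R' F w M v (ot H e v) else 0

end defs

section

variable {H : E → Finset V} {x : E → ℝ} {R' F : Finset E} {w : Finset E → ℝ}

theorem XF_le (S : Setup H x R' F w) (v : V) : XF H x F v ≤ a2 H x v := by
  unfold XF a2
  apply sum_le_sum_of_subset_of_nonneg
  · intro f hf
    obtain ⟨h1, h2⟩ := mem_filter.1 hf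
    exact mem_filter.2 ⟨mem_univ _, S.hF f h1, h2⟩
  · exact fun f _ _ => S.hx f

theorem a2_pos (S : Setup H x R' F w) {e : E} (he : e ∈ F) {v : V} (hv : v ∈ H e) :
    0 < a2 H x v := by
  have h1 : 0 < x e := lt_of_le_of_ne (S.hx e) (Ne.symm (S.hxF e he))
  have h2 : x e ≤ a2 H x v := by
    unfold a2
    exact single_le_sum (f := x) (fun f _ => S.hx f)
      (mem_filter.2 ⟨mem_univ _, S.hF e he, hv⟩)
  linarith

theorem om_spec (S : Setup H x R' F w) (v : V) :
    0 ≤ UF H x F v ∧ UF H x F v ≤ 7 / 25 ∧ 1 / 3 ≤ om H x R' F v ∧ om H x R' F v ≤ 25 / 18 ∧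
    om H x R' F v * (1 - UF H x F v) = 1 - Zp H x R' v - 2 / 3 * XF H x F v -
      ∑ f ∈ F with v ∈ H f, x f * uu (a2 H x (ot H f v)) * hh H x R' (ot H f v) := by
  have hU0 : 0 ≤ UF H x F v :=
    sum_nonneg fun f _ => mul_nonneg (S.hx f) (uu_nonneg (a2_nonneg S.hx _))
  have hX1 : XF H x F v ≤ 1 := (XF_le S v).trans (a2_le_one S.hx S.hdeg v)
  have hU1 : UF H x F v ≤ 7 / 25 := by
    have h1 : UF H x F v ≤ 7 / 25 * XF H x F v := by
      unfold UF XF
      rw [mul_sum]
      apply sum_le_sum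
      intro f _
      have := mul_le_mul_of_nonneg_left (uu_le (t := a2 H x (ot H f v))) (S.hx f)
      linarith
    linarith
  have hom : om H x R' F v * (1 - UF H x F v) = 1 - Zp H x R' v - 2 / 3 * XF H x F v -
      ∑ f ∈ F with v ∈ H f, x f * uu (a2 H x (ot H f v)) * hh H x R' (ot H f v) := by
    unfold om
    rw [div_mul_cancel₀]
    intro h
    linarith
  have h0 := omega_bounds (F.filter fun f => v ∈ H f) x (fun f => uu (a2 H x (ot H f v)))
    (fun f => hh H x R' (ot H f v)) (fun f => 1 - Zp H x R' (ot H f v))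
    (fun f _ => S.hx f) (fun f _ => cls_of S.hx S.hdeg S.hR' _) hX1
    (cover_core S.hx S.hdeg S.hR' v).2.1
    (by
      have h1 := Zp_le S.hx S.hdeg S.hR' v
      have h2 := (cover_core S.hx S.hdeg S.hR' v).1
      have h3 := XF_le S v
      have h4 : XF H x F v = ∑ f ∈ F with v ∈ H f, x f := rfl
      rw [← h4]
      linarith) hom
  exact ⟨hU0, hU1, h0.2.2.1, h0.2.2.2, hom⟩

/-- At most one endpoint is a centre. -/
theorem rt_cases (S : Setup H x R' F w) {e : E} (he : e ∈ F) {v : V} (hv : v ∈ H e) :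
    (7 / 20 < a2 H x v ∧ rt H x e v = uu (a2 H x (ot H e v)) ∧ rt H x e (ot H e v) = 0) ∨
    (a2 H x v ≤ 7 / 20 ∧ rt H x e v = 0) := by
  by_cases h : 7 / 20 < a2 H x v
  · left
    refine ⟨h, ?_, ?_⟩
    · unfold rt; rw [if_pos h]
    · unfold rt
      rw [ot_ot (S.hF e he) hv, uu_big h]
      simp
  · right
    push Not at h
    refine ⟨h, ?_⟩
    unfold rt
    rw [if_neg (by linarith)]

theorem rt_nonneg (S : Setup H x R' F w) (e : E) (v : V) : 0 ≤ rt H x e v := by
  unfold rt
  split_ifs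
  · exact uu_nonneg (a2_nonneg S.hx _)
  · exact le_rfl

theorem hh_nonneg (S : Setup H x R' F w) (v : V) : 0 ≤ hh H x R' v :=
  (cover_core S.hx S.hdeg S.hR' v).1

theorem hh_le (S : Setup H x R' F w) (v : V) : hh H x R' v ≤ 4 / 13 := (cls_of S.hx S.hdeg S.hR' v).2.1

/-- Main service of an edge at a big vertex. -/
theorem ss_big (S : Setup H x R' F w) {e : E} (he : e ∈ F) {v : V} (hv : v ∈ H e)
    (hb : 7 / 20 < a2 H x v) :
    ss H x R' F e = x e * (2 / 3 - uu (a2 H x (ot H e v)) *
      (om H x R' F v - hh H x R' (ot H e v))) := by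
  unfold ss
  rw [sum_two (S.hF e he) hv]
  rcases rt_cases S he hv with ⟨h1, h2, h3⟩ | ⟨h1, h2⟩
  · rw [h2, h3]; ring
  · linarith

/-- Main service of an edge with two small endpoints. -/
theorem ss_small (S : Setup H x R' F w) {e : E} (he : e ∈ F) {v : V} (hv : v ∈ H e)
    (hb : a2 H x v ≤ 7 / 20) (hb' : a2 H x (ot H e v) ≤ 7 / 20) :
    ss H x R' F e = x e * (2 / 3) := by
  have h0 := ot_mem (S.hF e he) hv
  unfold ss
  rw [sum_two (S.hF e he) hv]
  rcases rt_cases S he hv with ⟨h1, h2, h3⟩ | ⟨h1, h2⟩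
  · linarith
  · rcases rt_cases S he h0.2 with ⟨h4, h5, h6⟩ | ⟨h4, h5⟩
    · linarith
    · rw [h2, h5]; ring

theorem ss_bounds (S : Setup H x R' F w) {e : E} (he : e ∈ F) :
    0 ≤ ss H x R' F e ∧ ss H x R' F e ≤ 2 / 3 * x e := by
  obtain ⟨v, hv⟩ := S.hne e
  have h0 := ot_mem (S.hF e he) hv
  have hxe := S.hx e
  have key : ∀ v ∈ H e, 7 / 20 < a2 H x v →
      0 ≤ ss H x R' F e ∧ ss H x R' F e ≤ 2 / 3 * x e := by
    intro v hv hb
    rw [ss_big S he hv hb]
    obtain ⟨-, -, h1, h2, -⟩ := om_spec S v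
    have h3 := hh_nonneg S (ot H e v)
    have h4 := hh_le S (ot H e v)
    have h5 := uu_nonneg (a2_nonneg (H := H) S.hx (ot H e v))
    have h6 := uu_le (t := a2 H x (ot H e v))
    have h7 : 0 ≤ uu (a2 H x (ot H e v)) * (om H x R' F v - hh H x R' (ot H e v)) :=
      mul_nonneg h5 (by linarith)
    have h8 : uu (a2 H x (ot H e v)) * (om H x R' F v - hh H x R' (ot H e v)) ≤ 7 / 25 * (25 / 18) :=
      mul_le_mul h6 (by linarith) (by linarith) (by norm_num)
    constructor
    · apply mul_nonneg hxe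
      linarith
    · nlinarith
  by_cases hb : 7 / 20 < a2 H x v
  · exact key v hv hb
  · by_cases hb' : 7 / 20 < a2 H x (ot H e v)
    · exact key _ h0.2 hb'
    · rw [ss_small S he hv (by linarith) (by linarith)]
      constructor
      · positivity
      · linarith

open Classical in
/-- The free mass. -/
theorem lf_ge (S : Setup H x R' F w) {e : E} (he : e ∈ F) {v : V} (hv : v ∈ H e) :
    1 - Zp H x R' v - Zp H x R' (ot H e v) ≤ lf H w e := by
  have h1 := avoid_mass (p := fun g => ¬ Disjoint (H e) (H g)) S.hw0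
    (fun M h => (S.hws M h).2) S.hw1 S.hwm
  have h2 : ∑ M with (∀ g ∈ M, ¬ ¬ Disjoint (H e) (H g)), w M = lf H w e := by
    unfold lf fr
    apply sum_congr _ fun _ _ => rfl
    ext M
    simp only [mem_filter, mem_univ, true_and, not_not]
  rw [h2] at h1
  refine le_trans ?_ h1
  have h3 : ∑ f ∈ R' with ¬ Disjoint (H e) (H f), dem H x (kap3 H x) 3 f ≤
      Zp H x R' v + Zp H x R' (ot H e v) := by
    unfold Zp
    have hd : ∀ g ∈ R', 0 ≤ dem H x (kap3 H x) 3 g := by
      intro g hg
      rcases Nat.lt_or_ge (H g).card 4 with h | h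
      · have h4 : (H g).card = 3 := by have := S.hR' g hg; omega
        rw [dem_three S.hx h4]
        have h5 := charge_le' (H := H) S.hx h4
        have h6 : 0 ≤ 3 / 7 * x g := mul_nonneg (by norm_num) (S.hx g)
        exact div_nonneg h6 (by linarith)
      · exact (dem_ge_four S.hx h).1
    calc ∑ f ∈ R' with ¬ Disjoint (H e) (H f), dem H x (kap3 H x) 3 f
        ≤ ∑ f ∈ (R'.filter fun g => v ∈ H g) ∪ (R'.filter fun g => ot H e v ∈ H g),
            dem H x (kap3 H x) 3 f := by
          apply sum_le_sum_of_subset_of_nonneg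
          · intro g hg
            obtain ⟨h4, h5⟩ := mem_filter.1 hg
            rw [not_disjoint_iff] at h5
            obtain ⟨u, hu, hu'⟩ := h5
            rw [ot_pair (S.hF e he) hv] at hu
            rw [mem_union, mem_filter, mem_filter]
            rcases mem_insert.1 hu with rfl | hu
            · exact Or.inl ⟨h4, hu'⟩
            · rw [mem_singleton.1 hu] at hu'
              exact Or.inr ⟨h4, hu'⟩
          · intro g hg _
            apply hd
            rcases mem_union.1 hg with h | h <;> exact (mem_filter.1 h).1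
      _ ≤ _ := by
          have h6 := sum_union_inter (s₁ := R'.filter fun g => v ∈ H g)
            (s₂ := R'.filter fun g => ot H e v ∈ H g) (f := dem H x (kap3 H x) 3)
          have h7 : 0 ≤ ∑ f ∈ (R'.filter fun g => v ∈ H g) ∩ (R'.filter fun g => ot H e v ∈ H g),
              dem H x (kap3 H x) 3 f := by
            apply sum_nonneg
            intro g hg
            exact hd g (mem_filter.1 (mem_inter.1 hg).1).1
          linarith
  linarith

theorem lf_ge' (S : Setup H x R' F w) {e : E} (he : e ∈ F) {v : V} (hv : v ∈ H e) :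
    517 / 6517 + 3000 / 6517 * (a2 H x v + a2 H x (ot H e v)) ≤ lf H w e := by
  have h1 := lf_ge S he hv
  have h2 := Zp_le S.hx S.hdeg S.hR' v
  have h3 := Zp_le S.hx S.hdeg S.hR' (ot H e v)
  have h4 := hh_nonneg S v
  have h5 := hh_nonneg S (ot H e v)
  linarith

theorem lf_pos (S : Setup H x R' F w) {e : E} (he : e ∈ F) : 0 < lf H w e := by
  obtain ⟨v, hv⟩ := S.hne e
  have h1 := lf_ge' S he hv
  have h2 := a2_nonneg (H := H) S.hx v
  have h3 := a2_nonneg (H := H) S.hx (ot H e v)
  linarith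

theorem th_nonneg (S : Setup H x R' F w) {e : E} (he : e ∈ F) : 0 ≤ th H x R' F w e :=
  div_nonneg (ss_bounds S he).1 (lf_pos S he).le

theorem th_mul (S : Setup H x R' F w) {e : E} (he : e ∈ F) :
    th H x R' F w e * lf H w e = ss H x R' F e :=
  div_mul_cancel₀ _ (lf_pos S he).ne'

/-- **The star at a big vertex.** -/
theorem star_big (S : Setup H x R' F w) {v : V} (hb : 7 / 20 < a2 H x v) :
    ∑ f ∈ F with v ∈ H f, th H x R' F w f ≤ 1 := by
  obtain ⟨hU0, hU1, h1, h2, hom⟩ := om_spec S v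
  have hX1 : XF H x F v ≤ 1 := (XF_le S v).trans (a2_le_one S.hx S.hdeg v)
  have hZ : Zp H x R' v ≤ 3000 / 6517 * (1 - ∑ f ∈ F with v ∈ H f, x f) := by
    have h1 := Zp_le S.hx S.hdeg S.hR' v
    have h2 := (cover_core S.hx S.hdeg S.hR' v).1
    have h3 := XF_le S v
    have h4 : XF H x F v = ∑ f ∈ F with v ∈ H f, x f := rfl
    rw [← h4]
    linarith
  have h0 := star_two (F.filter fun f => v ∈ H f) x (fun f => uu (a2 H x (ot H f v)))
    (fun f => hh H x R' (ot H f v)) (fun f => 1 - Zp H x R' (ot H f v))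
    (fun f _ => S.hx f) (fun f _ => cls_of S.hx S.hdeg S.hR' _) hX1
    (cover_core S.hx S.hdeg S.hR' v).2.1 hZ hom
  refine le_trans ?_ h0
  apply sum_le_sum
  intro f hf
  obtain ⟨hf1, hf2⟩ := mem_filter.1 hf
  have h3 := lf_ge S hf1 hf2
  have h4 : 0 < 1 - Zp H x R' (ot H f v) - Zp H x R' v := by
    have h5 := Zp_le S.hx S.hdeg S.hR' v
    have h6 := Zp_le S.hx S.hdeg S.hR' (ot H f v)
    have h7 := hh_nonneg S v
    have h8 := hh_nonneg S (ot H f v)
    have h9 := a2_nonneg (H := H) S.hx (ot H f v)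
    have h10 := a2_nonneg (H := H) S.hx v
    linarith
  unfold th
  rw [← ss_big S hf1 hf2 hb]
  apply div_le_div_of_nonneg_left (ss_bounds S hf1).1 h4
  linarith

theorem ld_nonneg (S : Setup H x R' F w) (M : Finset E) (v : V) : 0 ≤ ld H x R' F w M v := by
  classical
  unfold ld
  apply sum_nonneg
  intro f hf
  apply mul_nonneg (th_nonneg S (mem_filter.1 hf).1)
  split_ifs <;> norm_num

theorem ld_le (S : Setup H x R' F w) (M : Finset E) {v : V} (hb : 7 / 20 < a2 H x v) :
    ld H x R' F w M v ≤ 1 := by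
  classical
  refine le_trans ?_ (star_big S hb)
  unfold ld
  apply sum_le_sum
  intro f hf
  have := th_nonneg S (mem_filter.1 hf).1
  split_ifs
  · linarith
  · linarith

theorem idl_bounds (S : Setup H x R' F w) (M : Finset E) {v : V} (hb : 7 / 20 < a2 H x v)
    (u : V) : 0 ≤ idl H x R' F w M v u ∧
      idl H x R' F w M v u ≤ 1 - ld H x R' F w M v ∧ idl H x R' F w M v u ≤ 1 := by
  classical
  have h1 := ld_le S M hb
  have h2 := ld_nonneg S M v
  unfold idl
  split_ifs
  · refine ⟨by linarith, by linarith, by linarith⟩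
  · refine ⟨by linarith, by linarith, by linarith⟩

/-- Weights at a big vertex. -/
theorem zz_big (S : Setup H x R' F w) (M : Finset E) {e : E} (he : e ∈ F) {v : V} (hv : v ∈ H e)
    (hb : 7 / 20 < a2 H x v) [Decidable (fr H M e)] :
    zz H x R' F w M e = th H x R' F w e * (if fr H M e then 1 else 0) +
      x e * uu (a2 H x (ot H e v)) * idl H x R' F w M v (ot H e v) := by
  classical
  unfold zz
  rw [if_pos he, sum_two (S.hF e he) hv]
  rcases rt_cases S he hv with ⟨h1, h2, h3⟩ | ⟨h1, h2⟩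
  · rw [h2, h3]
    rw [mul_zero, zero_mul, add_zero]
    congr 2
    congr
  · linarith

/-- Weights with two small endpoints. -/
theorem zz_small (S : Setup H x R' F w) (M : Finset E) {e : E} (he : e ∈ F) {v : V}
    (hv : v ∈ H e) (hb : a2 H x v ≤ 7 / 20) (hb' : a2 H x (ot H e v) ≤ 7 / 20)
    [Decidable (fr H M e)] :
    zz H x R' F w M e = th H x R' F w e * (if fr H M e then 1 else 0) := by
  classical
  have h0 := ot_mem (S.hF e he) hv
  unfold zz
  rw [if_pos he, sum_two (S.hF e he) hv]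
  rcases rt_cases S he hv with ⟨h1, h2, h3⟩ | ⟨h1, h2⟩
  · linarith
  · rcases rt_cases S he h0.2 with ⟨h4, h5, h6⟩ | ⟨h4, h5⟩
    · linarith
    · rw [h2, h5]
      rw [mul_zero, zero_mul, zero_mul, add_zero, add_zero]
      congr

end

end H90.FKS
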