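import Mathlib
import Pool.Agent.H90.FKS.LevelTwo

/-!
# Level two from level three: realisation of the weights
-/

set_option autoImplicit false
set_option linter.unusedSectionVars false
set_option linter.unusedVariables false

namespace H90.FKS

open Finset H4.FKS H34.FKS H84.FKS

variable {V E : Type} [Fintype V] [DecidableEq V] [DecidableEq E] [Fintype E]
variable {H : E → Finset V} {x : E → ℝ} {R' F : Finset E} {w : Finset E → ℝ}

/-- Bound of the main rate. -/
theorem th_le (S : Setup H x R' F w) {e : E} (he : e ∈ F) {v : V} (hv : v ∈ H e) :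
    th H x R' F w e *
      (517 / 6517 + 3000 / 6517 * (a2 H x v + a2 H x (ot H e v))) ≤ 2 / 3 * x e := by
  have h1 := lf_ge' S he hv
  have h2 := th_nonneg S he
  have h3 := th_mul S he
  have h4 := (ss_bounds S he).2
  have := mul_le_mul_of_nonneg_left h1 h2
  linarith

theorem zz_nonneg (S : Setup H x R' F w) (M : Finset E) (e : E) : 0 ≤ zz H x R' F w M e := by
  classical
  by_cases he : e ∈ F
  swap
  · unfold zz; rw [if_neg he]
  have hth := th_nonneg S he
  have h0 : ∀ v ∈ H e, 7 / 20 < a2 H x v → 0 ≤ zz H x R' F w M e := by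
    intro v hv hb
    rw [zz_big S M he hv hb]
    have h1 := (idl_bounds S M hb (ot H e v)).1
    have h2 := uu_nonneg (a2_nonneg (H := H) S.hx (ot H e v))
    have h3 : 0 ≤ x e * uu (a2 H x (ot H e v)) := mul_nonneg (S.hx e) h2
    have h4 := mul_nonneg h3 h1
    have h5 : 0 ≤ th H x R' F w e * (if fr H M e then 1 else 0) := by
      apply mul_nonneg hth
      split_ifs <;> norm_num
    linarith
  obtain ⟨v, hv⟩ := S.hne e
  have h1 := ot_mem (S.hF e he) hv
  by_cases hb : 7 / 20 < a2 H x v
  · exact h0 v hv hb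
  by_cases hb' : 7 / 20 < a2 H x (ot H e v)
  · exact h0 _ h1.2 hb'
  rw [zz_small S M he hv (by linarith) (by linarith)]
  apply mul_nonneg hth
  split_ifs <;> norm_num

/-- Weights are at most the sum of the rates. -/
theorem zz_le_big (S : Setup H x R' F w) (M : Finset E) {e : E} (he : e ∈ F) {v : V}
    (hv : v ∈ H e) (hb : 7 / 20 < a2 H x v) :
    zz H x R' F w M e ≤ th H x R' F w e + x e * uu (a2 H x (ot H e v)) := by
  classical
  rw [zz_big S M he hv hb]
  have h1 := (idl_bounds S M hb (ot H e v)).2.2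
  have h2 := uu_nonneg (a2_nonneg (H := H) S.hx (ot H e v))
  have h3 : 0 ≤ x e * uu (a2 H x (ot H e v)) := mul_nonneg (S.hx e) h2
  have h4 := mul_le_mul_of_nonneg_left h1 h3
  have hth := th_nonneg S he
  have h5 : th H x R' F w e * (if fr H M e then 1 else 0) ≤ th H x R' F w e := by
    split_ifs <;> linarith
  linarith

theorem zz_le_small (S : Setup H x R' F w) (M : Finset E) {e : E} (he : e ∈ F) {v : V}
    (hv : v ∈ H e) (hb : a2 H x v ≤ 7 / 20) (hb' : a2 H x (ot H e v) ≤ 7 / 20) :
    zz H x R' F w M e ≤ th H x R' F w e := by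
  classical
  rw [zz_small S M he hv hb hb']
  have hth := th_nonneg S he
  split_ifs <;> linarith

/-- Degree at a big vertex. -/
theorem deg_big (S : Setup H x R' F w) (M : Finset E) {v : V} (hb : 7 / 20 < a2 H x v) :
    ∑ e ∈ F with v ∈ H e, zz H x R' F w M e ≤ 1 := by
  classical
  have h1 : ∑ e ∈ F with v ∈ H e, zz H x R' F w M e ≤
      ∑ e ∈ F with v ∈ H e, (th H x R' F w e * (if fr H M e then 1 else 0) +
        x e * uu (a2 H x (ot H e v)) * (1 - ld H x R' F w M v)) := by
    apply sum_le_sum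
    intro e he
    obtain ⟨he1, he2⟩ := mem_filter.1 he
    rw [zz_big S M he1 he2 hb]
    have h2 := (idl_bounds S M hb (ot H e v)).2.1
    have h3 : 0 ≤ x e * uu (a2 H x (ot H e v)) :=
      mul_nonneg (S.hx e) (uu_nonneg (a2_nonneg (H := H) S.hx (ot H e v)))
    have := mul_le_mul_of_nonneg_left h2 h3
    linarith
  refine h1.trans ?_
  rw [sum_add_distrib, ← sum_mul]
  have h2 : ∑ e ∈ F with v ∈ H e, th H x R' F w e * (if fr H M e then 1 else 0) =
      ld H x R' F w M v := by
    unfold ld
    apply sum_congr rfl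
    intro e _
    congr
  have h3 : ∑ e ∈ F with v ∈ H e, x e * uu (a2 H x (ot H e v)) = UF H x F v := rfl
  rw [h2, h3]
  obtain ⟨hU0, hU1, -, -, -⟩ := om_spec S v
  have h4 := ld_le S M hb
  nlinarith

/-- Real inequality at a small vertex. -/
theorem small_num {t s' : ℝ} (ht0 : 0 < t) (ht : t ≤ 7 / 20) (hs : 0 ≤ s') {y X : ℝ} (hX : 0 ≤ X)
    (hy : y * (517 / 6517 + 3000 / 6517 * (t + s')) ≤ 2 / 3 * X) : y * t ≤ X := by
  have hL : 0 < 517 / 6517 + 3000 / 6517 * (t + s') := by positivity
  have h1 : y * t * (517 / 6517 + 3000 / 6517 * (t + s')) ≤ 2 / 3 * X * t := by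
    have := mul_le_mul_of_nonneg_right hy ht0.le
    linarith
  have h2 : 2 / 3 * X * t ≤ X * (517 / 6517 + 3000 / 6517 * (t + s')) := by
    have h3 : 2 / 3 * t ≤ 517 / 6517 + 3000 / 6517 * (t + s') := by linarith
    have := mul_le_mul_of_nonneg_left h3 hX
    linarith
  exact le_of_mul_le_mul_right (h1.trans h2) hL

theorem small_num' {t s' : ℝ} (ht0 : 0 < t) (ht : t ≤ 7 / 20) (hs : 7 / 20 ≤ s') {y X : ℝ}
    (hX : 0 ≤ X) (hy : y * (517 / 6517 + 3000 / 6517 * (t + s')) ≤ 2 / 3 * X) :
    y * t ≤ 977 / 1000 * X := by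
  have hL : 0 < 517 / 6517 + 3000 / 6517 * (t + s') := by positivity
  have h1 : y * t * (517 / 6517 + 3000 / 6517 * (t + s')) ≤ 2 / 3 * X * t := by
    have := mul_le_mul_of_nonneg_right hy ht0.le
    linarith
  have h2 : 2 / 3 * X * t ≤ 977 / 1000 * X * (517 / 6517 + 3000 / 6517 * (t + s')) := by
    have h3 : 2 / 3 * t ≤ 977 / 1000 * (517 / 6517 + 3000 / 6517 * (t + s')) := by linarith
    have := mul_le_mul_of_nonneg_left h3 hX
    linarith
  exact le_of_mul_le_mul_right (h1.trans h2) hL

/-- Share of an edge at a small vertex. -/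
theorem share_small (S : Setup H x R' F w) (M : Finset E) {e : E} (he : e ∈ F) {v : V}
    (hv : v ∈ H e) (hb : a2 H x v ≤ 7 / 20) : zz H x R' F w M e * a2 H x v ≤ x e := by
  have h0 := ot_mem (S.hF e he) hv
  have h1 := a2_pos S he hv
  have h2 := a2_nonneg (H := H) S.hx (ot H e v)
  have h3 := th_le S he hv
  by_cases hb' : 7 / 20 < a2 H x (ot H e v)
  · have h4 := zz_le_big S M he h0.2 hb'
    rw [ot_ot (S.hF e he) hv] at h4
    have h5 := small_num' h1 hb hb'.le (S.hx e) h3
    have h6 : a2 H x v * uu (a2 H x v) ≤ 23 / 1000 := phi_le h1.le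
    have h7 := mul_le_mul_of_nonneg_right h4 h1.le
    have h8 := mul_le_mul_of_nonneg_left h6 (S.hx e)
    nlinarith
  · have h4 := zz_le_small S M he hv hb (by linarith)
    have h5 := small_num h1 hb h2 (S.hx e) h3
    have h7 := mul_le_mul_of_nonneg_right h4 h1.le
    linarith

/-- Degree condition. -/
theorem deg_all (S : Setup H x R' F w) (M : Finset E) (v : V) :
    ∑ e ∈ F with v ∈ H e, zz H x R' F w M e ≤ 1 := by
  classical
  by_cases hb : 7 / 20 < a2 H x v
  · exact deg_big S M hb
  push Not at hb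
  rcases (F.filter fun e => v ∈ H e).eq_empty_or_nonempty with h | ⟨e0, he0⟩
  · rw [h]; simp
  obtain ⟨h1, h2⟩ := mem_filter.1 he0
  have hp := a2_pos S h1 h2
  have h3 : (∑ e ∈ F with v ∈ H e, zz H x R' F w M e) * a2 H x v ≤ 1 * a2 H x v := by
    rw [sum_mul, one_mul]
    refine le_trans ?_ (XF_le S v)
    unfold XF
    apply sum_le_sum
    intro e he
    obtain ⟨h4, h5⟩ := mem_filter.1 he
    exact share_small S M h4 h5 hb
  exact le_of_mul_le_mul_right h3 hp

/-- Cycle condition, not requested. -/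
theorem cyc_num {a b y X : ℝ} (ha : 0 < a) (hb : 0 < b) (ha1 : a ≤ 1) (hb1 : b ≤ 1)
    (hX : 0 ≤ X) (hy : y * (517 / 6517 + 3000 / 6517 * (a + b)) ≤ 2 / 3 * X) :
    y ≤ 1 / 3 * (X / a + X / b) := by
  have hL : 0 < 517 / 6517 + 3000 / 6517 * (a + b) := by positivity
  have h1 : 1 / 3 * (X / a + X / b) = X * (a + b) / (3 * a * b) := by
    field_simp
    ring
  rw [h1, le_div_iff₀ (by positivity)]
  have h2 : y * (3 * a * b) * (517 / 6517 + 3000 / 6517 * (a + b)) ≤
      X * (a + b) * (517 / 6517 + 3000 / 6517 * (a + b)) := by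
    have h3 : 2 * (a * b) ≤ (a + b) * (517 / 6517 + 3000 / 6517 * (a + b)) := by
      nlinarith [sq_nonneg (a - b), mul_pos ha hb]
    have h4 := mul_le_mul_of_nonneg_left hy (by positivity : 0 ≤ 3 * a * b)
    have h5 := mul_le_mul_of_nonneg_left h3 hX
    nlinarith
  exact le_of_mul_le_mul_right h2 hL

/-- Cycle condition, requested edge (`a` big, `b` small end). -/
theorem cyc_num' {a b y X : ℝ} (ha : 7 / 20 < a) (hb : 0 < b) (ha1 : a ≤ 1) (hb1 : b ≤ 7 / 20)
    (hX : 0 ≤ X) (hy : y * (517 / 6517 + 3000 / 6517 * (a + b)) ≤ 2 / 3 * X) {z : ℝ}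
    (hz : z ≤ y + X * uu b) : z ≤ 1 / 3 * (X / a + X / b) := by
  have ha0 : 0 < a := by linarith
  have hL : 0 < 517 / 6517 + 3000 / 6517 * (a + b) := by positivity
  have h1 : 1 / 3 * (X / a + X / b) = X * (a + b) / (3 * a * b) := by
    field_simp
    ring
  rw [h1, le_div_iff₀ (by positivity)]
  have hphi : b * uu b ≤ 23 / 1000 := phi_le hb.le
  have h6 : z * (3 * a * b) ≤ y * (3 * a * b) + X * (69 / 1000 * a) := by
    have h7 := mul_le_mul_of_nonneg_right hz (by positivity : 0 ≤ 3 * a * b)
    have h8 := mul_le_mul_of_nonneg_left hphi (by positivity : 0 ≤ 3 * a * X)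
    nlinarith
  have h2 : y * (3 * a * b) * (517 / 6517 + 3000 / 6517 * (a + b)) ≤
      X * (a + b - 69 / 1000 * a) * (517 / 6517 + 3000 / 6517 * (a + b)) := by
    have h3 : 2 * (a * b) ≤ (a + b - 69 / 1000 * a) * (517 / 6517 + 3000 / 6517 * (a + b)) := by
      nlinarith [sq_nonneg (a - b), mul_pos ha0 hb, mul_nonneg hb.le (by linarith : 0 ≤ 7 / 20 - b),
        mul_nonneg ha0.le (by linarith : 0 ≤ 7 / 20 - b), mul_nonneg ha0.le (by linarith : 0 ≤ 1 - a),
        mul_nonneg hb.le (by linarith : 0 ≤ 1 - a)]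
    have h4 := mul_le_mul_of_nonneg_left hy (by positivity : 0 ≤ 3 * a * b)
    have h5 := mul_le_mul_of_nonneg_left h3 hX
    nlinarith
  have h9 := le_of_mul_le_mul_right h2 hL
  linarith

theorem cyc_all (S : Setup H x R' F w) (M : Finset E) {e : E} (he : e ∈ F) :
    zz H x R' F w M e ≤ 1 / 3 * ∑ v ∈ H e, x e / a2 H x v := by
  have key : ∀ v ∈ H e, 7 / 20 < a2 H x v →
      zz H x R' F w M e ≤ 1 / 3 * ∑ v ∈ H e, x e / a2 H x v := by
    intro v hv hb
    have h0 := ot_mem (S.hF e he) hv
    rw [sum_two (S.hF e he) hv]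
    have h1 := a2_pos S he h0.2
    have h2 := a2_le_one S.hx S.hdeg v
    have h3 := th_le S he hv
    have h4 := zz_le_big S M he hv hb
    by_cases hb' : a2 H x (ot H e v) ≤ 7 / 20
    · exact cyc_num' hb h1 h2 hb' (S.hx e) h3 h4
    · push Not at hb'
      rw [uu_big hb'] at h4
      have h5 := cyc_num (by linarith) h1 h2 (a2_le_one S.hx S.hdeg _) (S.hx e) h3
      linarith
  obtain ⟨v, hv⟩ := S.hne e
  have h0 := ot_mem (S.hF e he) hv
  by_cases hb : 7 / 20 < a2 H x v
  · exact key v hv hb
  by_cases hb' : 7 / 20 < a2 H x (ot H e v)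
  · exact key _ h0.2 hb'
  rw [sum_two (S.hF e he) hv]
  have h4 := zz_le_small S M he hv (by linarith) (by linarith)
  have h5 := cyc_num (a2_pos S he hv) (a2_pos S he h0.2) (a2_le_one S.hx S.hdeg _)
    (a2_le_one S.hx S.hdeg _) (S.hx e) (th_le S he hv)
  linarith

/-- The weights are realisable at every outcome. -/
theorem real_zz (S : Setup H x R' F w) (M : Finset E) {ρ : E → V}
    (hρ : ∀ e, x e ≠ 0 → ρ e ∈ H e) (hinj : ∀ e f, x e ≠ 0 → x f ≠ 0 → ρ e = ρ f → e = f) :
    Real (fun e f => ¬ Disjoint (H e) (H f)) F (zz H x R' F w M) :=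
  real_pseudo S.hne S.hF (fun e he => hρ e (S.hxF e he))
    (fun e he f hf => hinj e f (S.hxF e he) (S.hxF f hf)) S.hx (zz_nonneg S M)
    (a := a2 H x) (XF_le S) (deg_all S M) (fun e he => cyc_all S M he)

/-- **Charge of an edge of the outcome.** -/
theorem charge (S : Setup H x R' F w) {M : Finset E} {g : E} (hg : g ∈ M) :
    ∑ e ∈ F with ¬ Disjoint (H e) (H g), zz H x R' F w M e ≤
      if (H g).card < 4 then ∑ v ∈ H g, phi (a2 H x v) else 0 := by
  classical
  set c : V → ℝ := fun v => if (v ∈ H g ∧ (H g).card < 4) then uu (a2 H x v) else 0 with hc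
  have hc0 : ∀ v, 0 ≤ c v := by
    intro v
    simp only [hc]
    split_ifs
    · exact uu_nonneg (a2_nonneg S.hx _)
    · exact le_rfl
  have h1 : ∀ e ∈ F.filter (fun e => ¬ Disjoint (H e) (H g)),
      zz H x R' F w M e ≤ ∑ v ∈ H e, x e * c v := by
    intro e he
    obtain ⟨he1, he2⟩ := mem_filter.1 he
    have hfr : ¬ fr H M e := fun h => he2 (h g hg)
    have hsum0 : 0 ≤ ∑ v ∈ H e, x e * c v :=
      sum_nonneg fun v _ => mul_nonneg (S.hx e) (hc0 v)
    have key : ∀ v ∈ H e, 7 / 20 < a2 H x v →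
        zz H x R' F w M e ≤ ∑ v ∈ H e, x e * c v := by
      intro v hv hb
      have h0 := ot_mem (S.hF e he1) hv
      rw [zz_big S M he1 hv hb, if_neg hfr, mul_zero, zero_add]
      by_cases hcond : ¬ cov H M v ∧ ¬ cov4 H M (ot H e v)
      · obtain ⟨hc1, hc2⟩ := hcond
        have hvg : v ∉ H g := fun h => hc1 ⟨g, hg, h⟩
        have hug : ot H e v ∈ H g := by
          rw [not_disjoint_iff] at he2
          obtain ⟨u, hu, hu'⟩ := he2
          rw [ot_pair (S.hF e he1) hv] at hu
          rcases mem_insert.1 hu with rfl | hu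
          · exact absurd hu' hvg
          · rw [mem_singleton.1 hu] at hu'
            exact hu'
        have hcard : (H g).card < 4 := by
          by_contra h
          exact hc2 ⟨g, hg, hug, by omega⟩
        have h2 : c (ot H e v) = uu (a2 H x (ot H e v)) := by
          simp only [hc]
          rw [if_pos ⟨hug, hcard⟩]
        have h3 : x e * c (ot H e v) ≤ ∑ v ∈ H e, x e * c v :=
          single_le_sum (f := fun v => x e * c v) (fun v _ => mul_nonneg (S.hx e) (hc0 v)) h0.2
        refine le_trans ?_ h3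
        rw [h2]
        have h4 := (idl_bounds S M hb (ot H e v)).2.2
        have h5 : 0 ≤ x e * uu (a2 H x (ot H e v)) :=
          mul_nonneg (S.hx e) (uu_nonneg (a2_nonneg S.hx _))
        have := mul_le_mul_of_nonneg_left h4 h5
        linarith
      · have h2 : idl H x R' F w M v (ot H e v) = 0 := by
          unfold idl
          rw [if_neg hcond, mul_zero]
        rw [h2, mul_zero]
        exact hsum0
    obtain ⟨v, hv⟩ := S.hne e
    have h0 := ot_mem (S.hF e he1) hv
    by_cases hb : 7 / 20 < a2 H x v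
    · exact key v hv hb
    by_cases hb' : 7 / 20 < a2 H x (ot H e v)
    · exact key _ h0.2 hb'
    rw [zz_small S M he1 hv (by linarith) (by linarith), if_neg hfr, mul_zero]
    exact hsum0
  calc ∑ e ∈ F with ¬ Disjoint (H e) (H g), zz H x R' F w M e
      ≤ ∑ e ∈ F with ¬ Disjoint (H e) (H g), ∑ v ∈ H e, x e * c v := sum_le_sum h1
    _ ≤ ∑ e ∈ F, ∑ v ∈ H e, x e * c v := by
        apply sum_le_sum_of_subset_of_nonneg (filter_subset _ _)
        intro e _ _
        exact sum_nonneg fun v _ => mul_nonneg (S.hx e) (hc0 v)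
    _ = ∑ v, ∑ e ∈ F with v ∈ H e, x e * c v := (sum_incid F (fun e v => x e * c v)).symm
    _ = ∑ v, XF H x F v * c v := by
        apply sum_congr rfl
        intro v _
        unfold XF
        rw [sum_mul]
    _ ≤ ∑ v, (if (v ∈ H g ∧ (H g).card < 4) then phi (a2 H x v) else 0) := by
        apply sum_le_sum
        intro v _
        simp only [hc]
        split_ifs with h
        · unfold phi
          exact mul_le_mul_of_nonneg_right (XF_le S v) (uu_nonneg (a2_nonneg S.hx _))
        · rw [mul_zero]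
    _ = _ := by
        split_ifs with h
        · simp only [h, and_true]
          rw [← sum_filter]
          congr 1
          ext v; simp
        · simp [h]

open Classical in
/-- **Idle mass in expectation.** -/
theorem idle_exp (S : Setup H x R' F w) {v : V} (hb : 7 / 20 < a2 H x v) (u : V) :
    om H x R' F v - hh H x R' u ≤ ∑ M, w M * idl H x R' F w M v u := by
  obtain ⟨hU0, hU1, h1, h2, hom⟩ := om_spec S v
  -- uncovered mass
  have hA := avoid_mass (p := fun g => v ∈ H g) S.hw0 (fun M h => (S.hws M h).2) S.hw1 S.hwm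
  have hB := avoid_mass (p := fun g => u ∈ H g ∧ 4 ≤ (H g).card) S.hw0
    (fun M h => (S.hws M h).2) S.hw1 S.hwm
  have hA' : ∑ M with (∀ g ∈ M, ¬ v ∈ H g), w M = ∑ M, w M * (if cov H M v then 0 else 1) := by
    rw [sum_filter]
    apply sum_congr rfl
    intro M _
    by_cases h : cov H M v
    · rw [if_pos h, if_neg, mul_zero]
      intro h'
      obtain ⟨g, hg, hg'⟩ := h
      exact h' g hg hg'
    · rw [if_neg h, if_pos, mul_one]
      intro g hg hg'
      exact h ⟨g, hg, hg'⟩
  have hB' : ∑ M with (∀ g ∈ M, ¬ (u ∈ H g ∧ 4 ≤ (H g).card)), w M =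
      ∑ M, w M * (if cov4 H M u then 0 else 1) := by
    rw [sum_filter]
    apply sum_congr rfl
    intro M _
    by_cases h : cov4 H M u
    · rw [if_pos h, if_neg, mul_zero]
      intro h'
      obtain ⟨g, hg, hg'⟩ := h
      exact h' g hg hg'
    · rw [if_neg h, if_pos, mul_one]
      intro g hg hg'
      exact h ⟨g, hg, hg'⟩
  have hA2 : ∑ f ∈ R' with v ∈ H f, dem H x (kap3 H x) 3 f = Zp H x R' v := rfl
  have hB2 : ∑ f ∈ R' with (u ∈ H f ∧ 4 ≤ (H f).card), dem H x (kap3 H x) 3 f =
      hh H x R' u := rfl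
  rw [hA', hA2] at hA
  rw [hB', hB2] at hB
  -- load in expectation
  have hL : ∑ M, w M * ld H x R' F w M v = ∑ f ∈ F with v ∈ H f, ss H x R' F f := by
    unfold ld
    simp_rw [mul_sum]
    rw [sum_comm]
    apply sum_congr rfl
    intro f hf
    rw [← th_mul S (mem_filter.1 hf).1]
    unfold lf
    rw [mul_sum, sum_filter]
    apply sum_congr rfl
    intro M _
    split_ifs <;> ring
  have hSs : ∑ f ∈ F with v ∈ H f, ss H x R' F f = 2 / 3 * XF H x F v -
      om H x R' F v * UF H x F v +
      ∑ f ∈ F with v ∈ H f, x f * uu (a2 H x (ot H f v)) * hh H x R' (ot H f v) := by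
    unfold XF UF
    rw [mul_sum, mul_sum, ← sum_sub_distrib, ← sum_add_distrib]
    apply sum_congr rfl
    intro f hf
    obtain ⟨hf1, hf2⟩ := mem_filter.1 hf
    rw [ss_big S hf1 hf2 hb]
    ring
  -- pointwise
  have hpt : ∀ M, w M * ((if cov H M v then 0 else 1) + (if cov4 H M u then 0 else 1) - 1 -
      ld H x R' F w M v) ≤ w M * idl H x R' F w M v u := by
    intro M
    apply mul_le_mul_of_nonneg_left _ (S.hw0 M)
    have h3 := ld_le S M hb
    have h4 := ld_nonneg S M v
    unfold idl
    by_cases h5 : cov H M v <;> by_cases h6 : cov4 H M u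
    · rw [if_pos h5, if_pos h6, if_neg (by tauto)]; linarith
    · rw [if_pos h5, if_neg h6, if_neg (by tauto)]; linarith
    · rw [if_neg h5, if_pos h6, if_neg (by tauto)]; linarith
    · rw [if_neg h5, if_neg h6, if_pos (by tauto)]; linarith
  have hfin := sum_le_sum fun M (_ : M ∈ (univ : Finset (Finset E))) => hpt M
  refine le_trans ?_ hfin
  have h7 : ∑ M, w M * ((if cov H M v then 0 else 1) + (if cov4 H M u then 0 else 1) - 1 -
      ld H x R' F w M v) = ∑ M, w M * (if cov H M v then 0 else 1) +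
      ∑ M, w M * (if cov4 H M u then 0 else 1) - ∑ M, w M - ∑ M, w M * ld H x R' F w M v := by
    rw [← sum_add_distrib, ← sum_sub_distrib, ← sum_sub_distrib]
    apply sum_congr rfl
    intro M _
    ring
  rw [h7, S.hw1, hL, hSs]
  linarith

/-- **Every edge of `F` is served.** -/
theorem served (S : Setup H x R' F w) {e : E} (he : e ∈ F) :
    2 / 3 * x e ≤ ∑ M, w M * zz H x R' F w M e := by
  classical
  have h0 : ∑ M, w M * (th H x R' F w e * (if fr H M e then 1 else 0)) = ss H x R' F e := by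
    rw [← th_mul S he]
    unfold lf
    rw [mul_sum, sum_filter]
    apply sum_congr rfl
    intro M _
    split_ifs <;> ring
  have key : ∀ v ∈ H e, 7 / 20 < a2 H x v →
      2 / 3 * x e ≤ ∑ M, w M * zz H x R' F w M e := by
    intro v hv hb
    have h1 : ∑ M, w M * zz H x R' F w M e = ss H x R' F e +
        x e * uu (a2 H x (ot H e v)) * ∑ M, w M * idl H x R' F w M v (ot H e v) := by
      rw [← h0, mul_sum, ← sum_add_distrib]
      apply sum_congr rfl
      intro M _
      rw [zz_big S M he hv hb]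
      ring
    rw [h1, ss_big S he hv hb]
    have h2 := idle_exp S hb (ot H e v)
    have h3 : 0 ≤ x e * uu (a2 H x (ot H e v)) :=
      mul_nonneg (S.hx e) (uu_nonneg (a2_nonneg S.hx _))
    have h4 := mul_le_mul_of_nonneg_left h2 h3
    nlinarith
  obtain ⟨v, hv⟩ := S.hne e
  have h1 := ot_mem (S.hF e he) hv
  by_cases hb : 7 / 20 < a2 H x v
  · exact key v hv hb
  by_cases hb' : 7 / 20 < a2 H x (ot H e v)
  · exact key _ h1.2 hb'
  have h2 : ∑ M, w M * zz H x R' F w M e = ss H x R' F e := by
    rw [← h0]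
    apply sum_congr rfl
    intro M _
    rw [zz_small S M he hv (by linarith) (by linarith)]
  rw [h2, ss_small S he hv (by linarith) (by linarith)]
  linarith

/-- Elements with zero demand may be added. -/
theorem real_add_zero {r : E → E → Prop} {R R1 : Finset E} {y : E → ℝ} (hR : Real r R y)
    (hsub : R ⊆ R1) (h0 : ∀ e ∈ R1, e ∉ R → y e = 0) : Real r R1 y := by
  obtain ⟨w, hw0, hws, hw1, hwm⟩ := hR
  refine ⟨w, hw0, fun M hM => ⟨(hws M hM).1, (hws M hM).2.trans hsub⟩, hw1, ?_⟩
  intro e he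
  by_cases h : e ∈ R
  · exact hwm e h
  · rw [h0 e he h]
    apply sum_eq_zero
    intro M hM
    by_contra hne
    exact h ((hws M hne).2 (mem_filter.1 hM).2)

/-- **Level two from level three.** -/
theorem lvl_two_of_lvl_three (hne : ∀ e, (H e).Nonempty) (hx : ∀ e, 0 ≤ x e)
    (hdeg : ∀ v, ∑ f with v ∈ H f, x f ≤ 1) (hsdr : HasSDR H x)
    (h3 : Lvl H x (kap3 H x) 3) : Lvl H x (fun _ => 0) 2 := by
  classical
  intro R hR
  obtain ⟨ρ, hρ, hinj⟩ := hsdr
  set F := R.filter (fun e => (H e).card = 2 ∧ x e ≠ 0) with hFdef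
  set R' := R.filter (fun e => 3 ≤ (H e).card) with hR'def
  have hreal := h3 R' (fun e he => (mem_filter.1 he).2)
  obtain ⟨w, hw0, hws, hw1, hwm⟩ := hreal
  have S : Setup H x R' F w := by
    refine ⟨hne, hx, hdeg, fun g hg => (mem_filter.1 hg).2, fun e he => (mem_filter.1 he).2.1,
      fun e he => (mem_filter.1 he).2.2, hw0, hws, hw1, ?_⟩
    intro e he
    convert hwm e he
  have hdisj : Disjoint R' F := by
    rw [disjoint_left]
    intro e he he'
    have h4 := (mem_filter.1 he).2
    have h5 := (mem_filter.1 he').2.1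
    omega
  have hmain : Real (fun e f => ¬ Disjoint (H e) (H f)) (R' ∪ F) (dem H x (fun _ => 0) 2) := by
    apply real_frac (r := fun e f => ¬ Disjoint (H e) (H f))
      (fun a b h h' => h (disjoint_comm.1 h')) hdisj hw0 hws hw1 hwm
      (z := zz H x R' F w) (fun M _ => real_zz S M hρ hinj)
      (φ := fun g => if (H g).card < 4 then ∑ v ∈ H g, phi (a2 H x v) else 0)
    · intro e _
      exact dem_nonneg hne hx (fun _ => le_rfl) 2 e
    · intro g _ M _ hgM
      exact charge S hgM
    · intro g hg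
      have hg3 := S.hR' g hg
      unfold dem
      rw [if_neg (by omega)]
      rcases Nat.lt_or_ge (H g).card 4 with h | h
      · have h4 : (H g).card = 3 := by omega
        rw [if_pos h, if_pos h4, h4]
        have h5 := charge_le' (H := H) hx h4
        unfold kap3
        have h6 : (1 - ∑ v ∈ H g, phi (a2 H x v)) ≠ 0 := by linarith
        apply le_of_eq
        field_simp
        congr 1
        ring
      · rw [if_neg (by omega), if_neg (by omega)]
        simp
    · intro e he
      have h4 := served S he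
      refine le_trans (le_of_eq ?_) h4
      unfold dem
      rw [if_pos (S.hF e he), ck2]
      ring
  apply real_add_zero hmain
  · intro e he
    rcases mem_union.1 he with h | h <;> exact (mem_filter.1 h).1
  · intro e he he'
    have h4 := hR e he
    have hx0 : x e = 0 := by
      by_contra hxe
      apply he'
      rw [mem_union]
      rcases Nat.lt_or_ge (H e).card 3 with h | h
      · exact Or.inr (mem_filter.2 ⟨he, by omega, hxe⟩)
      · exact Or.inl (mem_filter.2 ⟨he, h⟩)
    unfold dem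
    rw [hx0]
    simp

end H90.FKS
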